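import Pool.Agent.R498.MX.MX9

/-!
Strings of consecutive primes with given primitive roots: the general theorem for families.
-/

set_option autoImplicit false

namespace Pool.Agent.R498.MX

open Finset Filter

/-- a power of the logarithm is small -/
theorem pow_log_small (c K : ℝ) (B : ℕ) (hc : 0 < c) (hK : 0 < K) :
    ∀ᶠ N : ℕ in atTop, K * Real.log N ^ B ≤ (N : ℝ) ^ c := by
  have h1 := (isLittleO_log_rpow_rpow_atTop (B : ℝ) hc).bound (show 0 < 1 / K by positivity)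
  have h2 := tendsto_natCast_atTop_atTop.eventually h1
  filter_upwards [h2, eventually_ge_atTop 1] with N hN hN1
  have hN1r : (1 : ℝ) ≤ N := by exact_mod_cast hN1
  have hl : 0 ≤ Real.log N := Real.log_nonneg hN1r
  rw [Real.norm_of_nonneg (by positivity), Real.norm_of_nonneg (by positivity), Real.rpow_natCast] at hN
  calc K * Real.log N ^ B ≤ K * (1 / K * (N : ℝ) ^ c) := by gcongr
    _ = _ := by field_simp

/-- the averaging argument -/
theorem few_fail {ι : Type*} [DecidableEq ι] (M : ℕ) (I : Finset ι) (T : Finset ℕ) (hT : T.Nonempty)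
    (bd : ι → ℕ → Prop) [∀ i n, Decidable (bd i n)]
    (h : ∀ n ∈ T, (I.filter (fun i => bd i n)).card ≤ M) :
    (I.filter (fun i => T.card < 2 * (T.filter (fun n => bd i n)).card)).card ≤ 2 * M := by
  obtain ⟨G, hG⟩ : ∃ G, G = I.filter (fun i => T.card < 2 * (T.filter (fun n => bd i n)).card) := ⟨_, rfl⟩
  rw [← hG]
  have hT0 : 0 < T.card := hT.card_pos
  have h1 : G.card * T.card ≤ ∑ i ∈ G, 2 * (T.filter (fun n => bd i n)).card := by
    rw [← smul_eq_mul]
    apply Finset.card_nsmul_le_sum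
    intro i hi
    rw [hG, mem_filter] at hi
    exact hi.2.le
  have h2 : ∑ i ∈ G, 2 * (T.filter (fun n => bd i n)).card = 2 * ∑ n ∈ T, (G.filter (fun i => bd i n)).card := by
    rw [← Finset.mul_sum]
    congr 1
    simp_rw [card_filter]
    rw [sum_comm]
  have h3 : ∑ n ∈ T, (G.filter (fun i => bd i n)).card ≤ T.card * M := by
    rw [← smul_eq_mul]
    apply Finset.sum_le_card_nsmul
    intro n hn
    refine (card_le_card ?_).trans (h n hn)
    intro i hi
    rw [mem_filter] at hi ⊢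
    rw [hG, mem_filter] at hi
    exact ⟨hi.1.1, hi.2⟩
  rw [h2] at h1
  by_contra hcon
  push Not at hcon
  have h4 : (2 * M + 1) * T.card ≤ G.card * T.card := Nat.mul_le_mul_right _ hcon
  nlinarith

open Classical in
/-- more than `m` primes in `[n, n + S]`, and all the elements of `F` are primitive roots modulo all of them -/
def Str (m S : ℕ) (F : Finset ℤ) (n : ℕ) : Prop :=
  m < #{p ∈ Icc n (n + S) | p.Prime} ∧
    ∀ p ∈ Icc n (n + S), p.Prime → ∀ x ∈ F, orderOf (x : ZMod p) = p - 1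

open Classical in
/-- **Strings of consecutive primes with given primitive roots.** -/
theorem thmS (m : ℕ) : ∃ C B : ℕ, ∀ FF : Finset (Finset ℤ),
    (∀ F ∈ FF, ∀ x ∈ F, 2 ≤ x.natAbs ∧ ¬ (2 : ℤ) ∣ x ∧ ¬ (3 : ℤ) ∣ x ∧ ¬ IsSquare x) →
    (∀ F ∈ FF, ∀ F' ∈ FF, F ≠ F' → Disjoint F F') →
    (∀ x ∈ FF.biUnion id, ∀ y ∈ FF.biUnion id, x ≠ y → IsCoprime x y) →
    ∃ S : ℕ, ∀ᶠ N : ℕ in atTop,
      #{F ∈ FF | ¬ (N : ℝ) ≤ Real.log N ^ B * #{n ∈ Ioc N (2 * N) | Str m S F n}} ≤ C := by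
  obtain ⟨k, P₀, B, δ', hδ', hP₀, hstr⟩ := strings m
  obtain ⟨δ, hδd⟩ : ∃ δ, δ = min δ' 1 := ⟨_, rfl⟩
  have hδ : 0 < δ := by rw [hδd]; exact lt_min hδ' one_pos
  have hδ1 : δ ≤ 1 := by rw [hδd]; exact min_le_right _ _
  have hδδ : δ ≤ δ' := by rw [hδd]; exact min_le_left _ _
  obtain ⟨Q, hQ⟩ : ∃ Q, Q = ⌈2 / δ⌉₊ := ⟨_, rfl⟩
  refine ⟨2 * (2 ^ k * (Q * Q)), B + 1, fun FF hFF hdis hcop => ?_⟩
  obtain ⟨U, hU⟩ : ∃ U, U = FF.biUnion id := ⟨_, rfl⟩
  rw [← hU] at hcop
  have hUm : ∀ x ∈ U, ∃ F ∈ FF, x ∈ F := by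
    intro x hx
    rw [hU, mem_biUnion] at hx
    exact hx
  have hUp : ∀ x ∈ U, 2 ≤ x.natAbs ∧ ¬ (2 : ℤ) ∣ x ∧ ¬ (3 : ℤ) ∣ x ∧ ¬ IsSquare x := by
    intro x hx
    obtain ⟨F, hF, hxF⟩ := hUm x hx
    exact hFF F hF x hxF
  -- square-free parts
  have hex : ∀ x : ℤ, ∃ D b : ℤ, x ∈ U → x = D * b ^ 2 ∧ Squarefree D ∧ D ≠ 1 ∧ b ≠ 0 := by
    intro x
    by_cases hx : x ∈ U
    · obtain ⟨D, b, h⟩ := Pool.Agent.Y855.sqf_part (hUp x hx).2.2.2
      exact ⟨D, b, fun _ => h⟩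
    · exact ⟨0, 0, fun h => absurd h hx⟩
  choose D b hDb using hex
  obtain ⟨TD, hTD⟩ : ∃ TD, TD = U.image D := ⟨_, rfl⟩
  have hdvdD : ∀ x ∈ U, D x ∣ x := fun x hx => ⟨b x ^ 2, (hDb x hx).1⟩
  obtain ⟨y, hy⟩ : ∃ y, y = max P₀ (TD.sup Int.natAbs) := ⟨_, rfl⟩
  have hy2 : 2 ≤ y := hP₀.trans (by rw [hy]; exact le_max_left _ _)
  obtain ⟨c, hc8, hcy, hc1, hcj⟩ := Pool.Agent.Y855.common_class TD (by
      intro d hd
      rw [hTD, mem_image] at hd
      obtain ⟨x, hx, rfl⟩ := hd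
      obtain ⟨h1, h2, h3, h4⟩ := hDb x hx
      exact ⟨h2, fun h => (hUp x hx).2.1 (h.trans (hdvdD x hx)),
        fun h => (hUp x hx).2.2.1 (h.trans (hdvdD x hx)), h3⟩) (by
      intro d hd d' hd' hne
      rw [hTD, mem_image] at hd hd'
      obtain ⟨x, hx, rfl⟩ := hd
      obtain ⟨x', hx', rfl⟩ := hd'
      have h1 : x ≠ x' := fun h => hne (by rw [h])
      exact (hcop x hx x' hx' h1).of_isCoprime_of_dvd_left (hdvdD x hx) |>.of_isCoprime_of_dvd_right
        (hdvdD x' hx')) hy2 (fun d hd => by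
      rw [hy]
      exact (Finset.le_sup (f := Int.natAbs) hd).trans (le_max_right _ _))
  obtain ⟨W, hW⟩ : ∃ W, W = 4 * primorial y := ⟨_, rfl⟩
  rw [← hW] at hcj
  have hWp : ∀ l : ℕ, l.Prime → (l ∣ W ↔ l ≤ y) := by
    intro l hl
    rw [hW]
    constructor
    · intro h
      rcases hl.dvd_mul.1 h with h1 | h1
      · have h2 : l ∣ 2 ^ 2 := by exact_mod_cast h1
        have h3 := (Nat.prime_dvd_prime_iff_eq hl Nat.prime_two).1 (hl.dvd_of_dvd_pow h2)
        omega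
      · exact hl.dvd_primorial_iff.1 h1
    · intro h
      exact (hl.dvd_primorial_iff.2 h).mul_left 4
  have hW0 : 0 < W := by rw [hW]; exact Nat.mul_pos (by norm_num) (primorial_pos y)
  have hcW : c.Coprime W := by
    rw [Nat.coprime_comm]
    apply Nat.Coprime.symm
    apply Nat.coprime_of_dvd
    intro l hl hlc hlW
    exact hcy l hl ((hWp l hl).1 hlW) hlc
  obtain ⟨S, hS⟩ := hstr W hW0 (fun p hp hpP => (hWp p hp).2 (by rw [hy]; exact hpP.trans (le_max_left _ _)))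
  obtain ⟨C₁, hC₁, hbad⟩ := few_bad δ hδ hδ1 U (fun x hx => (hUp x hx).1) hcop
  refine ⟨S, ?_⟩
  have hc0 : 0 < (δ / 2) ^ 2 := by positivity
  filter_upwards [hS, pow_log_small ((δ / 2) ^ 2) (2 ^ k * C₁ * 2) B hc0 (by positivity),
    (Real.tendsto_log_atTop.comp tendsto_natCast_atTop_atTop).eventually_ge_atTop (4 : ℝ),
    eventually_ge_atTop (U.sup Int.natAbs + 3)] with N hN hNs hNl hNU
  simp only [Function.comp_apply] at hNl
  have hN3 : 3 ≤ N := by omega
  have hN0 : (0 : ℝ) < N := by exact_mod_cast (show 0 < N by omega)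
  obtain ⟨H, hHm, hHk, hHS, T, hT, hmem⟩ := hN c hcW
  obtain ⟨Bs, hB1, hB2⟩ := hbad N (by omega)
  -- remove the exceptional primes
  obtain ⟨T', hT'⟩ : ∃ T', T' = T.filter (fun n => ∀ h ∈ H, n + h ∉ Bs) := ⟨_, rfl⟩
  have hTT' : (T.card : ℝ) ≤ 2 * T'.card := by
    have h1 : T ⊆ T' ∪ H.biUnion (fun h => T.filter (fun n => n + h ∈ Bs)) := by
      intro n hn
      rw [mem_union]
      by_cases h2 : ∀ h ∈ H, n + h ∉ Bs
      · left
        rw [hT', mem_filter]
        exact ⟨hn, h2⟩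
      · right
        push Not at h2
        obtain ⟨h, hh, h3⟩ := h2
        rw [mem_biUnion]
        exact ⟨h, hh, mem_filter.2 ⟨hn, h3⟩⟩
    have h2 : (H.biUnion (fun h => T.filter (fun n => n + h ∈ Bs))).card ≤ 2 ^ k * Bs.card := by
      refine card_biUnion_le.trans ((sum_le_card_nsmul _ _ Bs.card fun h _ => ?_).trans ?_)
      · apply card_le_card_of_injOn (fun n => n + h)
        · intro n hn
          rw [mem_coe, mem_filter] at hn
          exact hn.2
        · intro a _ a' _ haa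
          have : a + h = a' + h := haa
          omega
      · rw [smul_eq_mul]
        exact Nat.mul_le_mul_right _ hHk
    have h3 : T.card ≤ T'.card + 2 ^ k * Bs.card :=
      (card_le_card h1).trans ((card_union_le _ _).trans (Nat.add_le_add_left h2 _))
    have h3r : (T.card : ℝ) ≤ T'.card + 2 ^ k * Bs.card := by exact_mod_cast h3
    have h4 : 2 * (2 ^ k * (Bs.card : ℝ)) ≤ T.card := by
      have h5 : (0 : ℝ) < Real.log N ^ B := by positivity
      have h6 : Real.log N ^ B * (2 * (2 ^ k * (Bs.card : ℝ))) ≤ N := by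
        calc Real.log N ^ B * (2 * (2 ^ k * (Bs.card : ℝ)))
            ≤ Real.log N ^ B * (2 * (2 ^ k * (C₁ * (N : ℝ) ^ (1 - (δ / 2) ^ 2)))) := by gcongr
          _ = (2 ^ k * C₁ * 2 * Real.log N ^ B) * (N : ℝ) ^ (1 - (δ / 2) ^ 2) := by ring
          _ ≤ (N : ℝ) ^ ((δ / 2) ^ 2) * (N : ℝ) ^ (1 - (δ / 2) ^ 2) := by gcongr
          _ = N := by
            rw [← Real.rpow_add hN0]
            norm_num
      exact le_of_mul_le_mul_left (h6.trans hT) h5
    linarith
  have hT'0 : T'.Nonempty := by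
    rw [← card_pos]
    have h1 : (0 : ℝ) < T.card := by
      by_contra hcon
      push Not at hcon
      have h2 : (T.card : ℝ) = 0 := le_antisymm hcon (Nat.cast_nonneg _)
      rw [h2, mul_zero] at hT
      linarith
    have h2 : (0 : ℝ) < T'.card := by linarith
    exact_mod_cast h2
  have hpU : ∀ n ∈ T, ∀ h ∈ H, ∀ x ∈ U, ¬ ((n + h : ℕ) : ℤ) ∣ x := by
    intro n hn h hh x hx hd
    have h1 := (hmem n hn).1
    have h2 : n + h ∣ x.natAbs := Int.natCast_dvd.1 hd
    have h3 := Nat.le_of_dvd (by have := (hUp x hx).1; omega) h2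
    have h4 := Finset.le_sup (f := Int.natAbs) hx
    omega
  -- odd primes dividing `p - 1` are large
  have hlarge : ∀ n ∈ T, ∀ h ∈ H, ∀ l : ℕ, l.Prime → 3 ≤ l → l ∣ n + h - 1 → (N : ℝ) ^ δ ≤ l := by
    intro n hn h hh l hl hl3 hld
    obtain ⟨g1, g2, g3, g4, g5⟩ := hmem n hn
    have hlW : ¬ l ∣ W := by
      intro hlW
      have h1 : n + h ≡ c [MOD l] := (g3 h hh).2.of_dvd hlW
      have h2 : 1 ≡ n + h [MOD l] := (Nat.modEq_iff_dvd' (g3 h hh).1.one_lt.le).2 hld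
      have h3 := hc1 l hl ((hWp l hl).1 hlW) (h1.symm.trans h2.symm)
      omega
    refine le_trans ?_ (g4 h hh l hl hlW hld)
    exact Real.rpow_le_rpow_of_exponent_le (by exact_mod_cast (show 1 ≤ N by omega)) hδδ
  obtain ⟨bd, hbd⟩ : ∃ bd : Finset ℤ → ℕ → Prop, bd = fun F n => ∃ h ∈ H, ∃ x ∈ F, badp x (n + h) := ⟨_, rfl⟩
  have hM : ∀ n ∈ T', (FF.filter (fun F => bd F n)).card ≤ 2 ^ k * (Q * Q) := by
    intro n hn
    rw [hT', mem_filter] at hn
    obtain ⟨hnT, hnB⟩ := hn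
    obtain ⟨g1, g2, g3, g4, g5⟩ := hmem n hnT
    have hw : ∀ F : Finset ℤ, ∃ w : (_ : ℕ) × ℤ, bd F n → w.1 ∈ H ∧ w.2 ∈ F ∧ badp w.2 (n + w.1) := by
      intro F
      by_cases h : bd F n
      · have h' := h
        rw [hbd] at h'
        obtain ⟨i, hi, x, hx, hb⟩ := h'
        exact ⟨⟨i, x⟩, fun _ => ⟨hi, hx, hb⟩⟩
      · exact ⟨⟨0, 0⟩, fun h' => absurd h' h⟩
    choose w hw using hw
    have h1 : (FF.filter (fun F => bd F n)).card ≤
        (H.sigma (fun h => U.filter (fun x => badp x (n + h)))).card := by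
      apply card_le_card_of_injOn w
      · intro F hF
        rw [mem_coe, mem_filter] at hF
        obtain ⟨h2, h3, h4⟩ := hw F hF.2
        rw [mem_coe, mem_sigma, mem_filter]
        refine ⟨h2, ?_, h4⟩
        rw [hU, mem_biUnion]
        exact ⟨F, hF.1, h3⟩
      · intro F hF F' hF' hww
        rw [mem_coe, mem_filter] at hF hF'
        by_contra hne
        have h2 := hdis F hF.1 F' hF'.1 hne
        rw [Finset.disjoint_left] at h2
        exact h2 (hw F hF.2).2.1 (hww ▸ (hw F' hF'.2).2.1)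
    refine h1.trans ?_
    rw [card_sigma]
    refine (sum_le_card_nsmul _ _ (Q * Q) fun h hh => ?_).trans ?_
    · rw [hQ]
      apply hB2 (n + h) (g3 h hh).1
      · have := hHS h hh
        omega
      · exact hnB h hh
      · exact hpU n hnT h hh
      · exact hlarge n hnT h hh
    · rw [smul_eq_mul]
      exact Nat.mul_le_mul_right _ hHk
  have hfew := few_fail (2 ^ k * (Q * Q)) FF T' hT'0 bd hM
  refine (card_le_card ?_).trans hfew
  intro F hF
  rw [mem_filter] at hF ⊢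
  refine ⟨hF.1, ?_⟩
  by_contra hcon
  push Not at hcon
  apply hF.2
  -- the good integers
  have hgood : T'.filter (fun n => ¬ bd F n) ⊆ (Ioc N (2 * N)).filter (fun n => Str m S F n) := by
    intro n hn
    rw [mem_filter] at hn ⊢
    obtain ⟨hn1, hn2⟩ := hn
    rw [hT', mem_filter] at hn1
    obtain ⟨hnT, hnB⟩ := hn1
    obtain ⟨g1, g2, g3, g4, g5⟩ := hmem n hnT
    refine ⟨mem_Ioc.2 ⟨g1, by omega⟩, ?_, ?_⟩
    · refine lt_of_lt_of_le hHm ?_
      apply card_le_card_of_injOn (fun h => n + h)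
      · intro h hh
        rw [mem_coe] at hh
        have h3 := hHS h hh
        have h4 : n ≤ n + h ∧ n + h ≤ n + S := ⟨by omega, by omega⟩
        exact mem_coe.2 (mem_filter.2 ⟨mem_Icc.2 h4, (g3 h hh).1⟩)
      · intro a _ a' _ haa
        have : n + a = n + a' := haa
        omega
    · intro p hp hpp x hx
      rw [mem_Icc] at hp
      obtain ⟨h, rfl⟩ := Nat.exists_eq_add_of_le hp.1
      have hh : h ∈ H := g5 h (by omega) hpp
      have hxU : x ∈ U := by rw [hU, mem_biUnion]; exact ⟨F, hF.1, hx⟩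
      apply ord_ofX x (D x) (b x) (hDb x hxU).1 (n + h) hpp (by omega) (hpU n hnT h hh x hxU)
      · apply hcj (D x) (by rw [hTD, mem_image]; exact ⟨x, hxU, rfl⟩)
        exact (g3 h hh).2
      · intro hb
        apply hn2
        rw [hbd]
        exact ⟨h, hh, x, hx, hb⟩
  have h5 := card_filter_add_card_filter_not (s := T') (p := fun n => bd F n)
  have h6 : T'.card ≤ 2 * (T'.filter (fun n => ¬ bd F n)).card := by omega
  have h7 := card_le_card hgood
  have h8 : (T'.card : ℝ) ≤ 2 * #{n ∈ Ioc N (2 * N) | Str m S F n} := by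
    exact_mod_cast h6.trans (Nat.mul_le_mul_left 2 h7)
  have h9 : (T.card : ℝ) ≤ Real.log N * #{n ∈ Ioc N (2 * N) | Str m S F n} := by
    have h10 : (0 : ℝ) ≤ #{n ∈ Ioc N (2 * N) | Str m S F n} := Nat.cast_nonneg _
    nlinarith
  have h10 : (0 : ℝ) ≤ Real.log N ^ B := by positivity
  calc (N : ℝ) ≤ Real.log N ^ B * T.card := hT
    _ ≤ Real.log N ^ B * (Real.log N * #{n ∈ Ioc N (2 * N) | Str m S F n}) := by gcongr
    _ = _ := by rw [← mul_assoc, pow_succ]

end Pool.Agent.R498.MX
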