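import Pool.Agent.R498.MX.MX10

/-!
Strings of consecutive primes which are good for all but boundedly many members of a family: the general
form.
-/

set_option autoImplicit false

namespace Pool.Agent.R498.MX

open Finset Filter

open Classical in
/-- **Strings of consecutive primes good for all but boundedly many members of a family.** -/
theorem famX (m : ℕ) :
    ∃ (k P₀ B : ℕ) (δ : ℝ), 0 < δ ∧ δ ≤ 1 ∧ 2 ≤ P₀ ∧
      ∀ W : ℕ, 0 < W → (∀ p : ℕ, p.Prime → p ≤ P₀ → p ∣ W) → ∃ S : ℕ,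
      ∀ c : ℕ, c.Coprime W → ∀ (ι : Type) (I : Finset ι) (bd : ι → ℕ → Prop) (M : ℕ) (C₁ e : ℝ),
        0 < C₁ → 0 < e →
        (∀ᶠ N : ℕ in atTop, ∃ Bs : Finset ℕ, (Bs.card : ℝ) ≤ C₁ * (N : ℝ) ^ (1 - e) ∧
          ∀ p : ℕ, p.Prime → N < p → p ≤ 2 * N → p ≡ c [MOD W] →
            (∀ l : ℕ, l.Prime → ¬ l ∣ W → l ∣ p - 1 → (N : ℝ) ^ δ ≤ l) → p ∉ Bs →
            #{i ∈ I | bd i p} ≤ M) →
        ∀ᶠ N : ℕ in atTop, #{i ∈ I | ¬ (N : ℝ) ≤ Real.log N ^ B * #{n ∈ Ioc N (2 * N) |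
          m < #{p ∈ Icc n (n + S) | p.Prime} ∧
            ∀ p ∈ Icc n (n + S), p.Prime → p ≡ c [MOD W] ∧ ¬ bd i p}} ≤ 2 * (2 ^ k * M) := by
  obtain ⟨k, P₀, B, δ', hδ', hP₀, hstr⟩ := strings m
  obtain ⟨δ, hδd⟩ : ∃ δ, δ = min δ' 1 := ⟨_, rfl⟩
  have hδ : 0 < δ := by rw [hδd]; exact lt_min hδ' one_pos
  have hδ1 : δ ≤ 1 := by rw [hδd]; exact min_le_right _ _
  have hδδ : δ ≤ δ' := by rw [hδd]; exact min_le_left _ _
  refine ⟨k, P₀, B + 1, δ, hδ, hδ1, hP₀, fun W hW0 hWp => ?_⟩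
  obtain ⟨S, hS⟩ := hstr W hW0 hWp
  refine ⟨S, fun c hcW ι I bd M C₁ e hC₁ he hbad => ?_⟩
  filter_upwards [hS, hbad, pow_log_small e (2 ^ k * C₁ * 2) B he (by positivity),
    (Real.tendsto_log_atTop.comp tendsto_natCast_atTop_atTop).eventually_ge_atTop (4 : ℝ),
    eventually_ge_atTop 3] with N hN hbN hNs hNl hN3
  simp only [Function.comp_apply] at hNl
  have hN0 : (0 : ℝ) < N := by exact_mod_cast (show 0 < N by omega)
  obtain ⟨H, hHm, hHk, hHS, T, hT, hmem⟩ := hN c hcW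
  obtain ⟨Bs, hB1, hB2⟩ := hbN
  -- remove the exceptional primes
  obtain ⟨T', hT'⟩ : ∃ T', T' = T.filter (fun n => ∀ h ∈ H, n + h ∉ Bs) := ⟨_, rfl⟩
  have hTT' : (T.card : ℝ) ≤ 2 * T'.card := by
    have h1 : T ⊆ T' ∪ H.biUnion (fun h => T.filter (fun n => n + h ∈ Bs)) := by
      intro n hn
      rw [mem_union]
      by_cases h2 : ∀ h ∈ H, n + h ∉ Bs
      · left
        rw [hT', mem_filter]
        exact ⟨hn, h2⟩
      · right
        push Not at h2
        obtain ⟨h, hh, h3⟩ := h2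
        rw [mem_biUnion]
        exact ⟨h, hh, mem_filter.2 ⟨hn, h3⟩⟩
    have h2 : (H.biUnion (fun h => T.filter (fun n => n + h ∈ Bs))).card ≤ 2 ^ k * Bs.card := by
      refine card_biUnion_le.trans ((sum_le_card_nsmul _ _ Bs.card fun h _ => ?_).trans ?_)
      · apply card_le_card_of_injOn (fun n => n + h)
        · intro n hn
          rw [mem_coe, mem_filter] at hn
          exact hn.2
        · intro a _ a' _ haa
          have : a + h = a' + h := haa
          omega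
      · rw [smul_eq_mul]
        exact Nat.mul_le_mul_right _ hHk
    have h3 : T.card ≤ T'.card + 2 ^ k * Bs.card :=
      (card_le_card h1).trans ((card_union_le _ _).trans (Nat.add_le_add_left h2 _))
    have h3r : (T.card : ℝ) ≤ T'.card + 2 ^ k * Bs.card := by exact_mod_cast h3
    have h4 : 2 * (2 ^ k * (Bs.card : ℝ)) ≤ T.card := by
      have h5 : (0 : ℝ) < Real.log N ^ B := by positivity
      have h6 : Real.log N ^ B * (2 * (2 ^ k * (Bs.card : ℝ))) ≤ N := by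
        calc Real.log N ^ B * (2 * (2 ^ k * (Bs.card : ℝ)))
            ≤ Real.log N ^ B * (2 * (2 ^ k * (C₁ * (N : ℝ) ^ (1 - e)))) := by gcongr
          _ = (2 ^ k * C₁ * 2 * Real.log N ^ B) * (N : ℝ) ^ (1 - e) := by ring
          _ ≤ (N : ℝ) ^ e * (N : ℝ) ^ (1 - e) := by gcongr
          _ = N := by
            rw [← Real.rpow_add hN0]
            norm_num
      exact le_of_mul_le_mul_left (h6.trans hT) h5
    linarith
  have hT'0 : T'.Nonempty := by
    rw [← card_pos]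
    have h1 : (0 : ℝ) < T.card := by
      by_contra hcon
      push Not at hcon
      have h2 : (T.card : ℝ) = 0 := le_antisymm hcon (Nat.cast_nonneg _)
      rw [h2, mul_zero] at hT
      linarith
    have h2 : (0 : ℝ) < T'.card := by linarith
    exact_mod_cast h2
  obtain ⟨bF, hbF⟩ : ∃ bF : ι → ℕ → Prop, bF = fun i n => ∃ h ∈ H, bd i (n + h) := ⟨_, rfl⟩
  have hM : ∀ n ∈ T', (I.filter (fun i => bF i n)).card ≤ 2 ^ k * M := by
    intro n hn
    rw [hT', mem_filter] at hn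
    obtain ⟨hnT, hnB⟩ := hn
    obtain ⟨g1, g2, g3, g4, g5⟩ := hmem n hnT
    have h1 : I.filter (fun i => bF i n) ⊆ H.biUnion (fun h => I.filter (fun i => bd i (n + h))) := by
      intro i hi
      rw [mem_filter, hbF] at hi
      obtain ⟨hiI, h, hh, hb⟩ := hi
      rw [mem_biUnion]
      exact ⟨h, hh, mem_filter.2 ⟨hiI, hb⟩⟩
    refine (card_le_card h1).trans (card_biUnion_le.trans ((sum_le_card_nsmul _ _ M fun h hh => ?_).trans ?_))
    · have h3 := hHS h hh
      refine hB2 (n + h) (g3 h hh).1 (by omega) (by omega) (g3 h hh).2 (fun l hl hlW hld => ?_) (hnB h hh)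
      refine le_trans ?_ (g4 h hh l hl hlW hld)
      exact Real.rpow_le_rpow_of_exponent_le (by exact_mod_cast (show 1 ≤ N by omega)) hδδ
    · rw [smul_eq_mul]
      exact Nat.mul_le_mul_right _ hHk
  have hfew := few_fail (2 ^ k * M) I T' hT'0 bF hM
  refine (card_le_card ?_).trans hfew
  intro F hF
  rw [mem_filter] at hF ⊢
  refine ⟨hF.1, ?_⟩
  by_contra hcon
  push Not at hcon
  apply hF.2
  obtain ⟨Z, hZ⟩ : ∃ Z : Finset ℕ, Z = (Ioc N (2 * N)).filter (fun n =>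
    m < #{p ∈ Icc n (n + S) | p.Prime} ∧
      ∀ p ∈ Icc n (n + S), p.Prime → p ≡ c [MOD W] ∧ ¬ bd F p) := ⟨_, rfl⟩
  rw [← hZ]
  -- the good integers
  have hgood : T'.filter (fun n => ¬ bF F n) ⊆ Z := by
    intro n hn
    rw [hZ]
    rw [mem_filter] at hn ⊢
    obtain ⟨hn1, hn2⟩ := hn
    rw [hT', mem_filter] at hn1
    obtain ⟨hnT, hnB⟩ := hn1
    obtain ⟨g1, g2, g3, g4, g5⟩ := hmem n hnT
    refine ⟨mem_Ioc.2 ⟨g1, by omega⟩, ?_, ?_⟩
    · refine lt_of_lt_of_le hHm ?_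
      apply card_le_card_of_injOn (fun h => n + h)
      · intro h hh
        rw [mem_coe] at hh
        have h3 := hHS h hh
        have h4 : n ≤ n + h ∧ n + h ≤ n + S := ⟨by omega, by omega⟩
        exact mem_coe.2 (mem_filter.2 ⟨mem_Icc.2 h4, (g3 h hh).1⟩)
      · intro a _ a' _ haa
        have : n + a = n + a' := haa
        omega
    · intro p hp hpp
      rw [mem_Icc] at hp
      obtain ⟨h, rfl⟩ := Nat.exists_eq_add_of_le hp.1
      have hh : h ∈ H := g5 h (by omega) hpp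
      refine ⟨(g3 h hh).2, fun hb => hn2 ?_⟩
      rw [hbF]
      exact ⟨h, hh, hb⟩
  have h5 := card_filter_add_card_filter_not (s := T') (p := fun n => bF F n)
  have h6 : T'.card ≤ 2 * (T'.filter (fun n => ¬ bF F n)).card := by omega
  have h7 := card_le_card hgood
  have h8 : (T'.card : ℝ) ≤ 2 * Z.card := by
    exact_mod_cast h6.trans (Nat.mul_le_mul_left 2 h7)
  have h9 : (T.card : ℝ) ≤ Real.log N * Z.card := by
    have h10 : (0 : ℝ) ≤ Z.card := Nat.cast_nonneg _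
    nlinarith
  have h10 : (0 : ℝ) ≤ Real.log N ^ B := by positivity
  calc (N : ℝ) ≤ Real.log N ^ B * T.card := hT
    _ ≤ Real.log N ^ B * (Real.log N * Z.card) := by gcongr
    _ = _ := by rw [← mul_assoc, pow_succ]

end Pool.Agent.R498.MX
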