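import Pool.Agent.R498.MX.MX11
import Pool.Agent.Y848.MS.Ord

/-!
Groups of rational numbers modulo primes (from `Pool/Agent/Y855/B17.lean`, `B19.lean`, `B20.lean`).
-/

set_option autoImplicit false

namespace Pool.Agent.R498.MX

open Finset

/-- the integer attached to an exponent vector, for the rational numbers `a i / c i` -/
def Mr {r : ℕ} (a c : Fin r → ℤ) (v : Fin r → ℤ) : ℤ :=
  ∏ i, (a i ^ (v i).toNat * c i ^ (-v i).toNat) - ∏ i, (c i ^ (v i).toNat * a i ^ (-v i).toNat)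

/-- multiplicative independence of rational numbers -/
def Ind {r : ℕ} (b : Fin r → ℚ) : Prop := ∀ e : Fin r → ℤ, ∏ i, b i ^ e i = 1 → ∀ i, e i = 0

theorem Mr_ne {r : ℕ} {b : Fin r → ℚ} (hb : ∀ i, b i ≠ 0) (hI : Ind b) {v : Fin r → ℤ} (hv : v ≠ 0) :
    Mr (fun i => (b i).num) (fun i => ((b i).den : ℤ)) v ≠ 0 := by
  intro h
  unfold Mr at h
  rw [sub_eq_zero] at h
  apply hv
  funext i
  apply hI v
  have hd : ∀ i, ((b i).den : ℚ) ≠ 0 := fun i => by exact_mod_cast (b i).den_nz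
  have hn : ∀ i, ((b i).num : ℚ) ≠ 0 := fun i => by exact_mod_cast Rat.num_ne_zero.2 (hb i)
  have h1 : ∏ i, (((b i).num : ℚ) ^ (v i).toNat * ((b i).den : ℚ) ^ (-v i).toNat) =
      ∏ i, (((b i).den : ℚ) ^ (v i).toNat * ((b i).num : ℚ) ^ (-v i).toNat) := by
    exact_mod_cast h
  have h2 : ∀ i, b i ^ v i = (((b i).num : ℚ) ^ (v i).toNat * ((b i).den : ℚ) ^ (-v i).toNat) /
      (((b i).den : ℚ) ^ (v i).toNat * ((b i).num : ℚ) ^ (-v i).toNat) := by
    intro i
    rw [eq_div_iff (mul_ne_zero (pow_ne_zero _ (hd i)) (pow_ne_zero _ (hn i)))]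
    have e1 : b i ^ v i = b i ^ ((v i).toNat : ℤ) / b i ^ ((-v i).toNat : ℤ) := by
      rw [← zpow_sub₀ (hb i), Int.toNat_sub_toNat_neg]
    rw [e1, zpow_natCast, zpow_natCast, ← Rat.num_div_den (b i)]
    have e2 : ((b i).num : ℚ) / (b i).den ≠ 0 := div_ne_zero (hn i) (hd i)
    have hd' := hd i
    have hn' := hn i
    simp only [Rat.num_div_den]
    generalize (v i).toNat = x
    generalize (-v i).toNat = y
    have hbi : b i = ((b i).num : ℚ) / (b i).den := (Rat.num_div_den (b i)).symm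
    generalize ((b i).num : ℚ) = n at hbi hn' ⊢
    generalize ((b i).den : ℚ) = d at hbi hd' ⊢
    rw [hbi, div_pow, div_pow]
    field_simp
  rw [prod_congr rfl (fun i _ => h2 i), prod_div_distrib, h1, div_self]
  rw [prod_ne_zero_iff]
  intro i _
  exact mul_ne_zero (pow_ne_zero _ (hd i)) (pow_ne_zero _ (hn i))

theorem Mr_le {r : ℕ} {a c : Fin r → ℤ} {H : ℕ} (hH : 1 ≤ H) (ha : ∀ i, (a i).natAbs ≤ H)
    (hc : ∀ i, (c i).natAbs ≤ H) {v : Fin r → ℤ} {N : ℕ} (hv : ∀ i, (v i).natAbs ≤ N) :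
    (Mr a c v).natAbs ≤ 2 ^ (2 * r * N * H + 1) := by
  have key : ∀ a c : Fin r → ℤ, (∀ i, (a i).natAbs ≤ H) → (∀ i, (c i).natAbs ≤ H) →
      (∏ i, (a i ^ (v i).toNat * c i ^ (-v i).toNat)).natAbs ≤ 2 ^ (2 * r * N * H) := by
    intro a c ha hc
    have e0 : (∏ i, (a i ^ (v i).toNat * c i ^ (-v i).toNat)).natAbs =
        ∏ i, (a i ^ (v i).toNat * c i ^ (-v i).toNat).natAbs := map_prod Int.natAbsHom _ _
    rw [e0]
    calc ∏ i, (a i ^ (v i).toNat * c i ^ (-v i).toNat).natAbs ≤ ∏ _i : Fin r, H ^ (2 * N) := by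
          apply Finset.prod_le_prod'
          intro i _
          rw [Int.natAbs_mul, Int.natAbs_pow, Int.natAbs_pow]
          have h1 := hv i
          calc (a i).natAbs ^ (v i).toNat * (c i).natAbs ^ (-v i).toNat
              ≤ H ^ (v i).toNat * H ^ (-v i).toNat :=
                Nat.mul_le_mul (Nat.pow_le_pow_left (ha i) _) (Nat.pow_le_pow_left (hc i) _)
            _ ≤ H ^ N * H ^ N := Nat.mul_le_mul (Nat.pow_le_pow_right hH (by omega))
                (Nat.pow_le_pow_right hH (by omega))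
            _ = H ^ (2 * N) := by rw [← pow_add]; congr 1; ring
      _ = H ^ (2 * N * r) := by rw [prod_const, card_univ, Fintype.card_fin, ← pow_mul]
      _ ≤ (2 ^ H) ^ (2 * N * r) := Nat.pow_le_pow_left Nat.lt_two_pow_self.le _
      _ = 2 ^ (2 * r * N * H) := by rw [← pow_mul]; congr 1; ring
  unfold Mr
  refine (Int.natAbs_sub_le _ _).trans ?_
  have h1 := key a c ha hc
  have h2 := key c a hc ha
  rw [pow_succ]
  omega

/-- few primes modulo which `r` independent rational numbers generate a small group -/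
theorem gm_rat {r : ℕ} (a c : Fin r → ℤ) (H : ℕ) (hH : 1 ≤ H) (ha : ∀ i, (a i).natAbs ≤ H)
    (hc : ∀ i, (c i).natAbs ≤ H) (hne : ∀ v : Fin r → ℤ, v ≠ 0 → Mr a c v ≠ 0)
    (N : ℕ) : ∃ B : Finset ℕ, B.card ≤ (2 * N + 1) ^ r * (2 * r * N * H + 1) ∧
      ∀ p : ℕ, p.Prime → (∀ i, ¬ (p : ℤ) ∣ a i) → (∀ i, ¬ (p : ℤ) ∣ c i) → ∀ g : ℕ, 0 < g → g < (N + 1) ^ r →
        (∀ i, ((a i : ℤ) : ZMod p) ^ g = ((c i : ℤ) : ZMod p) ^ g) → p ∈ B := by
  classical
  refine ⟨(Fintype.piFinset (fun _ : Fin r => Icc (-(N : ℤ)) N)).biUnion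
    (fun v => if v = 0 then ∅ else (Mr a c v).natAbs.primeFactors), ?_, ?_⟩
  · refine card_biUnion_le.trans ?_
    have h2 : ∀ v ∈ Fintype.piFinset (fun _ : Fin r => Icc (-(N : ℤ)) N),
        (if v = 0 then ∅ else (Mr a c v).natAbs.primeFactors).card ≤ 2 * r * N * H + 1 := by
      intro v hv
      rw [Fintype.mem_piFinset] at hv
      split_ifs with h0
      · rw [card_empty]; exact Nat.zero_le _
      · apply Pool.Agent.Y848.MS.card_pf_le
        · rw [Int.natAbs_ne_zero]; exact hne v h0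
        · exact Mr_le hH ha hc (fun i => by have := mem_Icc.1 (hv i); omega)
    refine (sum_le_card_nsmul _ _ _ h2).trans ?_
    rw [smul_eq_mul]
    apply Nat.mul_le_mul_right
    rw [Fintype.card_piFinset, prod_const, card_univ, Fintype.card_fin, Int.card_Icc]
    apply Nat.pow_le_pow_left
    omega
  · intro p hp hpa hpc g hg0 hgN hbg
    have : Fact p.Prime := ⟨hp⟩
    have ha0 : ∀ i, ((a i : ℤ) : ZMod p) ≠ 0 := by
      intro i h
      exact hpa i ((ZMod.intCast_zmod_eq_zero_iff_dvd _ _).1 h)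
    have hc0 : ∀ i, ((c i : ℤ) : ZMod p) ≠ 0 := by
      intro i h
      exact hpc i ((ZMod.intCast_zmod_eq_zero_iff_dvd _ _).1 h)
    obtain ⟨b, hb⟩ : ∃ b : Fin r → ZMod p, b = fun i => ((a i : ℤ) : ZMod p) / ((c i : ℤ) : ZMod p) := ⟨_, rfl⟩
    have hb0 : ∀ i, b i ≠ 0 := fun i => by rw [hb]; exact div_ne_zero (ha0 i) (hc0 i)
    have hb1 : ∀ i, b i ^ g = 1 := by
      intro i
      rw [hb]
      simp only
      rw [div_pow, hbg i, div_self (pow_ne_zero _ (hc0 i))]
    have hab : ∀ i, ((a i : ℤ) : ZMod p) = b i * ((c i : ℤ) : ZMod p) := by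
      intro i
      rw [hb]
      simp only
      rw [div_mul_cancel₀ _ (hc0 i)]
    -- pigeonhole
    set φ : (Fin r → Fin (N + 1)) → ZMod p := fun e => ∏ i, b i ^ (e i : ℕ) with hφ
    have hmaps : ∀ e ∈ (univ : Finset (Fin r → Fin (N + 1))), φ e ∈ (Polynomial.nthRoots g (1 : ZMod p)).toFinset := by
      intro e _
      rw [Multiset.mem_toFinset, Polynomial.mem_nthRoots hg0]
      simp only [hφ]
      rw [← Finset.prod_pow]
      apply prod_eq_one
      intro i _
      rw [← pow_mul, mul_comm, pow_mul, hb1 i, one_pow]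
    have hcard : ((Polynomial.nthRoots g (1 : ZMod p)).toFinset).card < (univ : Finset (Fin r → Fin (N + 1))).card := by
      calc ((Polynomial.nthRoots g (1 : ZMod p)).toFinset).card ≤ Multiset.card (Polynomial.nthRoots g (1 : ZMod p)) :=
            Multiset.toFinset_card_le _
        _ ≤ g := Polynomial.card_nthRoots g 1
        _ < (N + 1) ^ r := hgN
        _ = _ := by rw [card_univ, Fintype.card_fun, Fintype.card_fin, Fintype.card_fin]
    obtain ⟨e, _, f, _, hef, hφef⟩ := exists_ne_map_eq_of_card_lt_of_maps_to hcard hmaps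
    rw [mem_biUnion]
    refine ⟨fun i => (e i : ℤ) - (f i : ℤ), ?_, ?_⟩
    · rw [Fintype.mem_piFinset]
      intro i
      rw [mem_Icc]
      have h1 := (e i).2
      have h2 := (f i).2
      constructor <;> omega
    · have hv0 : (fun i => ((e i : ℕ) : ℤ) - ((f i : ℕ) : ℤ)) ≠ 0 := by
        intro h
        apply hef
        funext i
        have := congrFun h i
        simp only [Pi.zero_apply] at this
        exact Fin.ext (by omega)
      rw [if_neg hv0, Nat.mem_primeFactors]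
      refine ⟨hp, ?_, by rw [Int.natAbs_ne_zero]; exact hne _ hv0⟩
      rw [← Int.natCast_dvd, ← ZMod.intCast_zmod_eq_zero_iff_dvd]
      have e1 : φ e = (∏ i, b i ^ (min (e i : ℕ) (f i : ℕ))) *
          ∏ i, b i ^ (((e i : ℕ) : ℤ) - ((f i : ℕ) : ℤ)).toNat := by
        simp only [hφ]
        rw [← prod_mul_distrib]
        apply prod_congr rfl
        intro i _
        rw [← pow_add]
        congr 1
        omega
      have e2 : φ f = (∏ i, b i ^ (min (e i : ℕ) (f i : ℕ))) *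
          ∏ i, b i ^ (-(((e i : ℕ) : ℤ) - ((f i : ℕ) : ℤ))).toNat := by
        simp only [hφ]
        rw [← prod_mul_distrib]
        apply prod_congr rfl
        intro i _
        rw [← pow_add]
        congr 1
        omega
      rw [e1, e2] at hφef
      have h3 : ∏ i, b i ^ (((e i : ℕ) : ℤ) - ((f i : ℕ) : ℤ)).toNat =
          ∏ i, b i ^ (-(((e i : ℕ) : ℤ) - ((f i : ℕ) : ℤ))).toNat := by
        refine mul_left_cancel₀ ?_ hφef
        rw [prod_ne_zero_iff]
        intro i _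
        exact pow_ne_zero _ (hb0 i)
      unfold Mr
      push_cast
      rw [sub_eq_zero]
      have h4 : ∀ x y : Fin r → ℕ, ∏ i, (((a i : ℤ) : ZMod p) ^ x i * ((c i : ℤ) : ZMod p) ^ y i) =
          (∏ i, b i ^ x i) * ∏ i, ((c i : ℤ) : ZMod p) ^ (x i + y i) := by
        intro x y
        rw [← prod_mul_distrib]
        apply prod_congr rfl
        intro i _
        rw [hab i, mul_pow, pow_add]
        ring
      have h5 : ∀ x y : Fin r → ℕ, ∏ i, (((c i : ℤ) : ZMod p) ^ x i * ((a i : ℤ) : ZMod p) ^ y i) =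
          (∏ i, b i ^ y i) * ∏ i, ((c i : ℤ) : ZMod p) ^ (x i + y i) := by
        intro x y
        rw [← prod_mul_distrib]
        apply prod_congr rfl
        intro i _
        rw [hab i, mul_pow, pow_add]
        ring
      rw [h4, h5, h3]

/-- the same with real exponents -/
theorem gm_exp {r : ℕ} (hr : 1 ≤ r) (b : Fin r → ℚ) (hb : ∀ i, b i ≠ 0) (hI : Ind b) (η : ℝ) (hη : 0 < η)
    (hη1 : η ≤ 1) (hrη : 1 ≤ η * r) : ∃ (C : ℝ) (H : ℕ), 0 < C ∧ ∀ L : ℝ, 0 ≤ L → ∃ B : Finset ℕ,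
      (#B : ℝ) ≤ C * Real.exp ((1 - η ^ 2) * L) ∧
      ∀ p : ℕ, p.Prime → H < p → p ∉ B → ∀ g : ℕ, 0 < g → (g : ℝ) ≤ Real.exp ((1 - η) * L) →
        ¬ ∀ i, (((b i).num : ℤ) : ZMod p) ^ g = (((b i).den : ℕ) : ZMod p) ^ g := by
  obtain ⟨H, hH⟩ : ∃ H : ℕ, H = 1 + ∑ i, ((b i).num.natAbs + (b i).den) := ⟨_, rfl⟩
  have hHi : ∀ i, (b i).num.natAbs + (b i).den ≤ H := by
    intro i
    have := Finset.single_le_sum (f := fun i => (b i).num.natAbs + (b i).den) (fun j _ => Nat.zero_le _)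
      (mem_univ i)
    omega
  have hr0 : (0:ℝ) < r := by exact_mod_cast hr
  refine ⟨3 ^ r * (2 * r * H + 1), H, by positivity, ?_⟩
  intro L hL
  obtain ⟨u, hu⟩ : ∃ u, u = Real.exp ((1 - η) * L / r) := ⟨_, rfl⟩
  have hu1 : 1 ≤ u := by
    rw [hu]; apply Real.one_le_exp
    apply div_nonneg _ hr0.le
    exact mul_nonneg (by linarith) hL
  have hur : u ^ r = Real.exp ((1 - η) * L) := by
    rw [hu, ← Real.exp_nat_mul]
    congr 1
    field_simp
  obtain ⟨N, hN⟩ : ∃ N, N = ⌊u⌋₊ := ⟨_, rfl⟩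
  have hNu : (N : ℝ) ≤ u := by rw [hN]; exact Nat.floor_le (by linarith)
  have huN : u < (N : ℝ) + 1 := by rw [hN]; exact Nat.lt_floor_add_one u
  obtain ⟨B, hB1, hB2⟩ := gm_rat (fun i => (b i).num) (fun i => ((b i).den : ℤ)) H (by omega)
    (fun i => by have := hHi i; omega) (fun i => by
      have := hHi i
      rw [Int.natAbs_natCast]
      omega)
    (fun v hv => Mr_ne hb hI hv) N
  refine ⟨B, ?_, ?_⟩
  · have h3 : (B.card : ℝ) ≤ (2 * N + 1) ^ r * (2 * r * N * H + 1) := by exact_mod_cast hB1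
    refine h3.trans ?_
    have h4 : (2 * (N : ℝ) + 1) ^ r ≤ 3 ^ r * Real.exp ((1 - η) * L) := by
      rw [← hur, ← mul_pow]
      apply pow_le_pow_left₀ (by positivity)
      linarith
    have h5 : (2 * r * N * H + 1 : ℝ) ≤ (2 * r * H + 1) * u := by
      have h7 : (0 : ℝ) ≤ 2 * r * H := by positivity
      nlinarith
    have h6 : Real.exp ((1 - η) * L) * u ≤ Real.exp ((1 - η ^ 2) * L) := by
      rw [hu, ← Real.exp_add]
      apply Real.exp_le_exp.2
      have h7 : (1 - η) * L / r ≤ (1 - η) * L * η := by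
        rw [div_le_iff₀ hr0]
        have h8 : 0 ≤ (1 - η) * L := mul_nonneg (by linarith) hL
        nlinarith
      nlinarith
    calc (2 * (N : ℝ) + 1) ^ r * (2 * r * N * H + 1) ≤
        (3 ^ r * Real.exp ((1 - η) * L)) * ((2 * r * H + 1) * u) := by gcongr
      _ = 3 ^ r * (2 * r * H + 1) * (Real.exp ((1 - η) * L) * u) := by ring
      _ ≤ 3 ^ r * (2 * r * H + 1) * Real.exp ((1 - η ^ 2) * L) := by gcongr
  · intro p hp hpH hpB g hg0 hg hall
    apply hpB
    have hnd : ∀ m : ℕ, m ≠ 0 → m ≤ H → ¬ p ∣ m := by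
      intro m hm hmH hd
      have := Nat.le_of_dvd (Nat.pos_of_ne_zero hm) hd
      omega
    apply hB2 p hp _ _ g hg0 _ _
    · intro i hd
      refine hnd (b i).num.natAbs ?_ ?_ (Int.natCast_dvd.1 hd)
      · rw [Int.natAbs_ne_zero]
        exact Rat.num_ne_zero.2 (hb i)
      · have := hHi i; omega
    · intro i hd
      refine hnd (b i).den (b i).den_nz ?_ (Int.natCast_dvd_natCast.1 hd)
      have := hHi i; omega
    · have h1 : (g : ℝ) < ((N + 1) ^ r : ℕ) := by
        push_cast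
        calc (g : ℝ) ≤ u ^ r := by rw [hur]; exact hg
          _ < ((N : ℝ) + 1) ^ r := pow_lt_pow_left₀ huN (by linarith) (by omega)
      exact_mod_cast h1
    · intro i
      have := hall i
      push_cast
      exact this

/-- the group of the rational numbers that are units at `p` and whose `e`-th power is `1` modulo `p` -/
def Qs (p : ℕ) (hp : p.Prime) (e : ℕ) : Subgroup ℚˣ where
  carrier := {w | ∃ a c : ℤ, ¬ (p : ℤ) ∣ a ∧ ¬ (p : ℤ) ∣ c ∧ (w : ℚ) * c = a ∧
    (a : ZMod p) ^ e = (c : ZMod p) ^ e}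
  one_mem' := by
    have h1 : ¬ (p : ℤ) ∣ 1 := by
      intro h
      have : p ∣ 1 := by exact_mod_cast h
      exact hp.one_lt.ne' (Nat.dvd_one.1 this)
    exact ⟨1, 1, h1, h1, by simp, rfl⟩
  mul_mem' := by
    rintro w w' ⟨a, c, h1, h2, h3, h4⟩ ⟨a', c', h1', h2', h3', h4'⟩
    have hpi := Nat.prime_iff_prime_int.1 hp
    refine ⟨a * a', c * c', fun h => (hpi.dvd_or_dvd h).elim h1 h1', fun h => (hpi.dvd_or_dvd h).elim h2 h2',
      ?_, ?_⟩
    · push_cast
      rw [← h3, ← h3']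
      ring
    · push_cast
      rw [mul_pow, mul_pow, h4, h4']
  inv_mem' := by
    rintro w ⟨a, c, h1, h2, h3, h4⟩
    refine ⟨c, a, h2, h1, ?_, h4.symm⟩
    rw [← h3]
    push_cast
    have := w.ne_zero
    field_simp

theorem Qs_mem (p : ℕ) (hp : p.Prime) (e : ℕ) (w : ℚˣ) :
    w ∈ Qs p hp e ↔ (¬ (p : ℤ) ∣ (w : ℚ).num ∧ ¬ p ∣ (w : ℚ).den) ∧
      (((w : ℚ).num : ℤ) : ZMod p) ^ e = (((w : ℚ).den : ℕ) : ZMod p) ^ e := by
  have : Fact p.Prime := ⟨hp⟩
  have hpi := Nat.prime_iff_prime_int.1 hp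
  constructor
  · rintro ⟨a, c, h1, h2, h3, h4⟩
    -- `num * c = a * den`
    have h5 : (w : ℚ).num * c = a * (w : ℚ).den := by
      have h6 : ((w : ℚ).num : ℚ) / (w : ℚ).den * c = a := by rw [Rat.num_div_den]; exact h3
      have h7 : ((w : ℚ).den : ℚ) ≠ 0 := by exact_mod_cast (w : ℚ).den_nz
      field_simp at h6
      rw [mul_comm a]
      exact_mod_cast h6
    have hcop : IsCoprime (w : ℚ).num ((w : ℚ).den : ℤ) := by
      rw [Int.isCoprime_iff_gcd_eq_one]
      exact (w : ℚ).reduced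
    have hnn : ¬ (p : ℤ) ∣ (w : ℚ).num := by
      intro h
      have h6 : (p : ℤ) ∣ a * (w : ℚ).den := by rw [← h5]; exact h.mul_right c
      rcases hpi.dvd_or_dvd h6 with h7 | h7
      · exact h1 h7
      · exact hpi.not_isUnit (hcop.isUnit_of_dvd' h h7)
    have hdd : ¬ (p : ℤ) ∣ ((w : ℚ).den : ℤ) := by
      intro h
      have h6 : (p : ℤ) ∣ (w : ℚ).num * c := by rw [h5]; exact h.mul_left a
      rcases hpi.dvd_or_dvd h6 with h7 | h7
      · exact hnn h7
      · exact h2 h7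
    refine ⟨⟨hnn, fun h => hdd (Int.natCast_dvd_natCast.2 h)⟩, ?_⟩
    have h6 : (((w : ℚ).num : ℤ) : ZMod p) * c = a * (((w : ℚ).den : ℕ) : ZMod p) := by
      have := congrArg (Int.cast : ℤ → ZMod p) h5
      push_cast at this
      exact this
    have h7 := congrArg (fun t => t ^ e) h6
    simp only [mul_pow] at h7
    rw [← h4, mul_comm] at h7
    have ha0 : (a : ZMod p) ≠ 0 := fun h => h1 ((ZMod.intCast_zmod_eq_zero_iff_dvd _ _).1 h)
    exact mul_left_cancel₀ (pow_ne_zero _ ha0) h7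
  · rintro ⟨⟨h1, h2⟩, h3⟩
    refine ⟨(w : ℚ).num, (w : ℚ).den, h1, fun h => h2 (Int.natCast_dvd_natCast.1 h), ?_, ?_⟩
    · push_cast
      exact Rat.mul_den_eq_num _
    · push_cast
      exact h3

theorem Qs_mono (p : ℕ) (hp : p.Prime) (e : ℕ) : Qs p hp e ≤ Qs p hp 0 := by
  intro w hw
  rw [Qs_mem] at hw ⊢
  exact ⟨hw.1, by simp⟩

/-- finitely generated groups consist of units at all large primes -/
theorem fg_units (W : Subgroup ℚˣ) (hW : W.FG) : ∃ H : ℕ, ∀ p : ℕ, ∀ hp : p.Prime, H < p → W ≤ Qs p hp 0 := by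
  obtain ⟨S, hS⟩ := hW
  refine ⟨∑ w ∈ S, ((w : ℚ).num.natAbs + (w : ℚ).den), fun p hp hpH => ?_⟩
  rw [← hS, Subgroup.closure_le]
  intro w hw
  have h1 := Finset.single_le_sum (f := fun w : ℚˣ => (w : ℚ).num.natAbs + (w : ℚ).den)
    (fun j _ => Nat.zero_le _) (show w ∈ S from hw)
  have hn0 : (w : ℚ).num.natAbs ≠ 0 := by
    rw [Int.natAbs_ne_zero]
    exact Rat.num_ne_zero.2 w.ne_zero
  have hd0 := (w : ℚ).den_nz
  change w ∈ Qs p hp 0
  rw [Qs_mem]
  refine ⟨⟨fun h => ?_, fun h => ?_⟩, by simp⟩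
  · have := Nat.le_of_dvd (Nat.pos_of_ne_zero hn0) (Int.natCast_dvd.1 h)
    omega
  · have := Nat.le_of_dvd (Nat.pos_of_ne_zero hd0) h
    omega

/-- the image of `W` modulo `q` -/
def img (q : ℕ) (W : Subgroup ℚˣ) : Subgroup (ZMod q)ˣ :=
  Subgroup.closure {u : (ZMod q)ˣ | ∃ w ∈ W, (((w : ℚ).num : ℤ) : ZMod q) =
    (u : ZMod q) * (((w : ℚ).den : ℕ) : ZMod q)}

/-- a prime factor of the index -/
theorem img_index (p : ℕ) (hp : p.Prime) (W : Subgroup ℚˣ) (hW : W ≤ Qs p hp 0) (l : ℕ) (hl : l.Prime)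
    (hli : l ∣ (img p W).index) : l ∣ p - 1 ∧ W ≤ Qs p hp ((p - 1) / l) := by
  have : Fact p.Prime := ⟨hp⟩
  have hcard : Nat.card (img p W) * (img p W).index = p - 1 := by
    rw [Subgroup.card_mul_index, Nat.card_eq_fintype_card, ZMod.card_units]
  obtain ⟨f, hf⟩ := hli
  have hlp : l ∣ p - 1 := by
    rw [← hcard, hf]
    exact ⟨Nat.card (img p W) * f, by ring⟩
  refine ⟨hlp, fun w hw => ?_⟩
  have h1 := hW hw
  rw [Qs_mem] at h1 ⊢
  refine ⟨h1.1, ?_⟩
  have hn0 : (((w : ℚ).num : ℤ) : ZMod p) ≠ 0 :=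
    fun h => h1.1.1 ((ZMod.intCast_zmod_eq_zero_iff_dvd _ _).1 h)
  have hd0 : (((w : ℚ).den : ℕ) : ZMod p) ≠ 0 := fun h => h1.1.2 ((ZMod.natCast_eq_zero_iff _ _).1 h)
  obtain ⟨u, hu⟩ : ∃ u : (ZMod p)ˣ, (u : ZMod p) = (((w : ℚ).num : ℤ) : ZMod p) / (((w : ℚ).den : ℕ) : ZMod p) :=
    ⟨Units.mk0 _ (div_ne_zero hn0 hd0), rfl⟩
  have huW : u ∈ img p W := by
    apply Subgroup.subset_closure
    exact ⟨w, hw, by rw [hu, div_mul_cancel₀ _ hd0]⟩
  have h2 : u ^ ((p - 1) / l) = 1 := by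
    have h3 : (p - 1) / l = Nat.card (img p W) * f := by
      rw [← hcard, hf]
      have : Nat.card (img p W) * (l * f) = l * (Nat.card (img p W) * f) := by ring
      rw [this]
      exact Nat.mul_div_cancel_left _ hl.pos
    rw [h3, pow_mul]
    have h4 : (⟨u, huW⟩ : img p W) ^ Nat.card (img p W) = 1 := pow_card_eq_one'
    have h5 := congrArg Subtype.val h4
    simp only [SubmonoidClass.mk_pow, OneMemClass.coe_one] at h5
    rw [h5, one_pow]
  have h6 := congrArg (Units.val) h2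
  rw [Units.val_pow_eq_pow_val, hu, div_pow, Units.val_one, div_eq_one_iff_eq (pow_ne_zero _ hd0)] at h6
  exact h6

theorem index_dvd (p : ℕ) (hp : p.Prime) (hp2 : 2 < p) (W : Subgroup ℚˣ) (hW : W ≤ Qs p hp 0)
    (hodd : ∀ l : ℕ, l.Prime → l ∣ (img p W).index → l = 2) (κ : ℕ)
    (h : (∃ w ∈ W, ¬ IsSquare ((((w : ℚ).num * (w : ℚ).den : ℤ)) : ZMod p)) ∨
      ¬ 2 ^ (κ.factorization 2 + 1) ∣ p - 1) : (img p W).index ∣ κ := by
  have : Fact p.Prime := ⟨hp⟩
  have hcard : Nat.card (img p W) * (img p W).index = p - 1 := by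
    rw [Subgroup.card_mul_index, Nat.card_eq_fintype_card, ZMod.card_units]
  have hi0 : (img p W).index ≠ 0 := by
    intro h0
    rw [h0, mul_zero] at hcard
    omega
  have h6 : (img p W).index = 2 ^ (img p W).index.primeFactorsList.length :=
    Nat.eq_prime_pow_of_unique_prime_dvd hi0 (fun {d} hd1 hd2 => hodd d hd1 hd2)
  generalize (img p W).index.primeFactorsList.length = s at h6
  rcases h with ⟨w, hw, hsq⟩ | h
  · have hs : s = 0 := by
      by_contra hs0
      have h7 : 2 ∣ (img p W).index := by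
        rw [h6]
        exact dvd_pow_self 2 hs0
      obtain ⟨-, h8⟩ := img_index p hp W hW 2 Nat.prime_two h7
      have h9 := h8 hw
      rw [Qs_mem] at h9
      apply hsq
      have hn0 : (((w : ℚ).num : ℤ) : ZMod p) ≠ 0 :=
        fun h => h9.1.1 ((ZMod.intCast_zmod_eq_zero_iff_dvd _ _).1 h)
      have hd0 : (((w : ℚ).den : ℕ) : ZMod p) ≠ 0 := fun h => h9.1.2 ((ZMod.natCast_eq_zero_iff _ _).1 h)
      push_cast
      have hodd : p % 2 = 1 := by
        rcases hp.eq_two_or_odd with h10 | h10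
        · omega
        · exact h10
      have e2 : (p - 1) / 2 = p / 2 := by omega
      rw [ZMod.euler_criterion p (mul_ne_zero hn0 hd0), mul_pow, ← e2, h9.2, ← mul_pow, ← pow_two, ← pow_mul]
      have e3 : 2 * ((p - 1) / 2) = p - 1 := by omega
      rw [e3]
      exact ZMod.pow_card_sub_one_eq_one hd0
    rw [h6, hs, pow_zero]
    exact one_dvd _
  · have h7 : s ≤ κ.factorization 2 := by
      by_contra hcon
      apply h
      refine (pow_dvd_pow 2 (by omega : κ.factorization 2 + 1 ≤ s)).trans ?_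
      rw [← h6, ← hcard]
      exact Dvd.intro_left _ rfl
    rw [h6]
    exact (pow_dvd_pow 2 h7).trans (Nat.ordProj_dvd κ 2)

theorem val_zero (p : ℕ) (hp : p.Prime) (W : Subgroup ℚˣ) (hW : W ≤ Qs p hp 0) :
    ∀ w ∈ W, padicValRat p (w : ℚ) = 0 := by
  intro w hw
  have h1 := hW hw
  rw [Qs_mem] at h1
  unfold padicValRat
  have h2 : padicValInt p (w : ℚ).num = 0 := by
    unfold padicValInt
    apply padicValNat.eq_zero_of_not_dvd
    intro h
    exact h1.1.1 (Int.natCast_dvd.2 h)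
  have h3 : padicValNat p (w : ℚ).den = 0 := padicValNat.eq_zero_of_not_dvd h1.1.2
  rw [h2, h3]
  simp


end Pool.Agent.R498.MX
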