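import Pool.Agent.R498.MX.MX12

/-!
Strings of consecutive primes at which the indices of the reductions of groups of rational numbers divide a
given number.
-/

set_option autoImplicit false

namespace Pool.Agent.R498.MX

open Finset Filter

/-- the index divides `κ` -/
theorem index_dvdX (p : ℕ) (hp : p.Prime) (hp2 : 2 < p) (W : Subgroup ℚˣ) (hW : W ≤ Qs p hp 0) (κ : ℕ)
    (hκ : 0 < κ) (h : ∀ l : ℕ, l.Prime → ¬ l ^ (κ.factorization l + 1) ∣ p - 1 ∨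
      ¬ (l ∣ p - 1 ∧ W ≤ Qs p hp ((p - 1) / l))) : (img p W).index ∣ κ := by
  have : Fact p.Prime := ⟨hp⟩
  have hcard : Nat.card (img p W) * (img p W).index = p - 1 := by
    rw [Subgroup.card_mul_index, Nat.card_eq_fintype_card, ZMod.card_units]
  have hi0 : (img p W).index ≠ 0 := by
    intro h0
    rw [h0, mul_zero] at hcard
    omega
  rw [← Nat.factorization_prime_le_iff_dvd hi0 (by omega)]
  intro l hl
  by_contra hcon
  push Not at hcon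
  have h1 : l ^ (κ.factorization l + 1) ∣ (img p W).index :=
    (pow_dvd_pow l hcon).trans (Nat.ordProj_dvd _ _)
  have h2 : l ∣ (img p W).index := (dvd_pow_self l (by omega)).trans h1
  rcases h l hl with h3 | h3
  · apply h3
    rw [← hcard]
    exact h1.mul_left _
  · exact h3 (img_index p hp W hW l hl h2)

/-- a non-residue in `W` -/
theorem nonres (p : ℕ) (hp : p.Prime) (hp2 : 2 < p) (W : Subgroup ℚˣ)
    (h : ∃ w ∈ W, ¬ IsSquare ((((w : ℚ).num * (w : ℚ).den : ℤ)) : ZMod p)) :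
    ¬ W ≤ Qs p hp ((p - 1) / 2) := by
  have : Fact p.Prime := ⟨hp⟩
  intro h8
  obtain ⟨w, hw, hsq⟩ := h
  have h9 := h8 hw
  rw [Qs_mem] at h9
  apply hsq
  have hn0 : (((w : ℚ).num : ℤ) : ZMod p) ≠ 0 :=
    fun h => h9.1.1 ((ZMod.intCast_zmod_eq_zero_iff_dvd _ _).1 h)
  have hd0 : (((w : ℚ).den : ℕ) : ZMod p) ≠ 0 := fun h => h9.1.2 ((ZMod.natCast_eq_zero_iff _ _).1 h)
  push_cast
  have hodd : p % 2 = 1 := by
    rcases hp.eq_two_or_odd with h10 | h10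
    · omega
    · exact h10
  have e2 : (p - 1) / 2 = p / 2 := by omega
  rw [ZMod.euler_criterion p (mul_ne_zero hn0 hd0), mul_pow, ← e2, h9.2, ← mul_pow, ← pow_two, ← pow_mul]
  have e3 : 2 * ((p - 1) / 2) = p - 1 := by omega
  rw [e3]
  exact ZMod.pow_card_sub_one_eq_one hd0

/-- a class modulo `m P`, `P` the product of the primes up to `y` -/
theorem class_exX (m a : ℕ) (ham : a.Coprime m) (y : ℕ) :
    ∃ c : ℕ, c.Coprime (m * primorial y) ∧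
      (∀ q : ℕ, q.Prime → q ∣ m * primorial y → ¬ q ∣ m → q ≠ 2 → ¬ c ≡ 1 [MOD q]) ∧
      c ≡ a [MOD m] := by
  classical
  obtain ⟨E, hE⟩ : ∃ E : Finset ℕ, E = ((y + 1).primesBelow).filter (fun q => ¬ q ∣ m) := ⟨_, rfl⟩
  have hEp : ∀ q, q ∈ E ↔ (q ≤ y ∧ q.Prime) ∧ ¬ q ∣ m := by
    intro q
    rw [hE, mem_filter, Nat.mem_primesBelow]
    constructor
    · rintro ⟨⟨h1, h2⟩, h3⟩; exact ⟨⟨by omega, h2⟩, h3⟩
    · rintro ⟨⟨h1, h2⟩, h3⟩; exact ⟨⟨by omega, h2⟩, h3⟩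
  obtain ⟨m₂, hm₂⟩ : ∃ m₂ : ℕ, m₂ = ∏ q ∈ E, q := ⟨_, rfl⟩
  have hm₂0 : 0 < m₂ := by
    rw [hm₂]
    exact Finset.prod_pos fun q hq => ((hEp q).1 hq).1.2.pos
  have hcop : m.Coprime m₂ := by
    rw [hm₂]
    apply Nat.Coprime.prod_right
    intro q hq
    have := (hEp q).1 hq
    exact ((Nat.Prime.coprime_iff_not_dvd this.1.2).2 this.2).symm
  obtain ⟨c, hc1, hc2⟩ := Nat.chineseRemainder hcop a (m₂ - 1)
  have hcq : ∀ q ∈ E, (q : ℤ) ∣ (c : ℤ) + 1 := by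
    intro q hq
    have h1 : q ∣ m₂ := by rw [hm₂]; exact dvd_prod_of_mem _ hq
    have h2 : (m₂ : ℤ) ∣ (c : ℤ) - ((m₂ - 1 : ℕ) : ℤ) := (Nat.modEq_iff_dvd.1 hc2.symm)
    rw [Nat.cast_sub (by omega)] at h2
    have h3 : (m₂ : ℤ) ∣ (c : ℤ) + 1 := by
      have e : (c : ℤ) + 1 = ((c : ℤ) - ((m₂ : ℤ) - ((1 : ℕ) : ℤ))) + m₂ := by push_cast; ring
      rw [e]
      exact dvd_add h2 dvd_rfl
    exact (Int.natCast_dvd_natCast.2 h1).trans h3
  have hcase : ∀ q : ℕ, q.Prime → q ∣ m * primorial y → q ∣ m ∨ q ∈ E := by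
    intro q hq hqd
    by_cases hqm : q ∣ m
    · exact Or.inl hqm
    right
    rw [hEp]
    refine ⟨⟨?_, hq⟩, hqm⟩
    rcases (Nat.Prime.dvd_mul hq).1 hqd with h | h
    · exact absurd h hqm
    · exact hq.dvd_primorial_iff.1 h
  refine ⟨c, ?_, ?_, hc1⟩
  · rw [Nat.coprime_iff_gcd_eq_one]
    by_contra hne
    obtain ⟨q, hq, hqd⟩ := Nat.exists_prime_and_dvd hne
    have h1 := hqd.trans (Nat.gcd_dvd_left _ _)
    rcases hcase q hq (hqd.trans (Nat.gcd_dvd_right _ _)) with h | h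
    · have h2 : q ∣ a := by
        have h3 : c ≡ a [MOD q] := hc1.of_dvd h
        exact (h3.dvd_iff dvd_rfl).1 h1
      have h3 := Nat.dvd_gcd h2 h
      rw [Nat.coprime_iff_gcd_eq_one.1 ham] at h3
      exact hq.one_lt.ne' (Nat.dvd_one.1 h3)
    · have h2 := dvd_sub (hcq q h) (Int.natCast_dvd_natCast.2 h1)
      have h3 : (q : ℤ) ∣ ((1 : ℕ) : ℤ) := by simpa using h2
      exact hq.one_lt.ne' (Nat.dvd_one.1 (Int.natCast_dvd_natCast.1 h3))
  · intro q hq hqd hqm hq2 hcq1'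
    rcases hcase q hq hqd with h | h
    · exact hqm h
    · have h1 : (q : ℤ) ∣ (c : ℤ) - 1 := by
        have := Nat.modEq_iff_dvd.1 hcq1'.symm
        exact_mod_cast this
      have h2 : (q : ℤ) ∣ ((2 : ℕ) : ℤ) := by
        have := dvd_sub (hcq q h) h1
        have e : (c : ℤ) + 1 - (c - 1) = ((2 : ℕ) : ℤ) := by push_cast; ring
        rwa [e] at this
      have h3 := Nat.le_of_dvd (by norm_num) (Int.natCast_dvd_natCast.1 h2)
      have h4 := hq.two_le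
      omega

open Classical in
/-- few primes modulo which many of the groups of a family are small -/
theorem gmfamX (δ : ℝ) (hδ : 0 < δ) (K : ℕ) (hKδ : K = ⌈2 / δ⌉₊) {ι : Type} (I : Finset ι) (h : ℕ)
    (hh : 1 ≤ h) (Wm : ℕ) (h2W : 2 ∣ Wm)
    (P : ι → ℕ → ℕ → Prop) (H₀ : ℕ)
    (hP : ∀ J ⊆ I, J.card = h → ∃ b : Fin K → ℚ, (∀ j, b j ≠ 0) ∧ Ind b ∧
      ∀ p l : ℕ, p.Prime → H₀ < p → l.Prime → 3 ≤ l → l ∣ p - 1 → (∀ i ∈ J, P i p l) →
        ∀ j, (((b j).num : ℤ) : ZMod p) ^ ((p - 1) / l) = (((b j).den : ℕ) : ZMod p) ^ ((p - 1) / l)) :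
    ∃ (C₁ : ℝ) (H : ℕ), 0 < C₁ ∧ ∀ N : ℕ, 2 ≤ N → ∃ Bs : Finset ℕ,
      (Bs.card : ℝ) ≤ C₁ * (N : ℝ) ^ (1 - (1 / (K : ℝ)) ^ 2) ∧
      ∀ p : ℕ, p.Prime → H < p → p ≤ 2 * N → (∀ l : ℕ, l.Prime → ¬ l ∣ Wm → l ∣ p - 1 → (N : ℝ) ^ δ ≤ l) →
        p ∉ Bs →
        (I.filter (fun i => ∃ l : ℕ, l.Prime ∧ ¬ l ∣ Wm ∧ l ∣ p - 1 ∧ P i p l)).card ≤ K * (h - 1) := by
  have hK1' : 1 ≤ K := by
    rw [hKδ]
    exact Nat.one_le_ceil_iff.2 (by positivity)
  have hK0 : (0 : ℝ) < K := by exact_mod_cast hK1'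
  have hK1 : (1 : ℝ) ≤ K := by exact_mod_cast hK1'
  have hKd : 2 / δ ≤ K := by rw [hKδ]; exact Nat.le_ceil _
  have hJ : ∀ J : Finset ι, ∃ (C : ℝ) (H : ℕ), 0 < C ∧ (J ⊆ I → J.card = h → ∀ L : ℝ, 0 ≤ L → ∃ B : Finset ℕ,
      (#B : ℝ) ≤ C * Real.exp ((1 - (1 / (K : ℝ)) ^ 2) * L) ∧
      ∀ p l : ℕ, p.Prime → H < p → p ∉ B → l.Prime → 3 ≤ l → l ∣ p - 1 →
        (((p - 1) / l : ℕ) : ℝ) ≤ Real.exp ((1 - (1 / (K : ℝ))) * L) → ¬ ∀ i ∈ J, P i p l) := by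
    intro J
    by_cases hJI : J ⊆ I ∧ J.card = h
    · obtain ⟨b, hb0, hbI, hb⟩ := hP J hJI.1 hJI.2
      obtain ⟨C, H, hC, hgm⟩ := gm_exp hK1' b hb0 hbI (1 / (K : ℝ)) (by positivity)
        (by rw [div_le_one hK0]; exact hK1) (by rw [one_div_mul_cancel hK0.ne'])
      refine ⟨C, H + H₀, hC, fun _ _ L hL => ?_⟩
      obtain ⟨B, hB1, hB2⟩ := hgm L hL
      refine ⟨B, hB1, fun p l hp hpH hpB hl hl3 hlp hg hall => ?_⟩
      have hp10 : 0 < p - 1 := by have := hp.two_le; omega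
      refine hB2 p hp (by omega) hpB ((p - 1) / l) (Nat.div_pos (Nat.le_of_dvd hp10 hlp) hl.pos) hg ?_
      exact hb p l hp (by omega) hl hl3 hlp hall
    · exact ⟨1, 0, one_pos, fun h1 h2 => absurd ⟨h1, h2⟩ hJI⟩
  choose C HJ hC hJ using hJ
  have hCs : 0 ≤ ∑ J ∈ I.powersetCard h, C J := Finset.sum_nonneg fun J _ => (hC J).le
  refine ⟨2 * (∑ J ∈ I.powersetCard h, C J + 1), ∑ J ∈ I.powersetCard h, HJ J, by linarith, fun N hN => ?_⟩
  have hN2 : (2 : ℝ) ≤ N := by exact_mod_cast hN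
  have hN0 : (0 : ℝ) < N := by linarith
  have hL0 : 0 ≤ Real.log (2 * N) := Real.log_nonneg (by linarith)
  have hBJ : ∀ J : Finset ι, ∃ B : Finset ℕ, J ⊆ I → J.card = h →
      (#B : ℝ) ≤ C J * Real.exp ((1 - (1 / (K : ℝ)) ^ 2) * Real.log (2 * N)) ∧
      ∀ p l : ℕ, p.Prime → HJ J < p → p ∉ B → l.Prime → 3 ≤ l → l ∣ p - 1 →
        (((p - 1) / l : ℕ) : ℝ) ≤ Real.exp ((1 - (1 / (K : ℝ))) * Real.log (2 * N)) →
        ¬ ∀ i ∈ J, P i p l := by
    intro J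
    by_cases hJI : J ⊆ I ∧ J.card = h
    · obtain ⟨B, hB⟩ := hJ J hJI.1 hJI.2 _ hL0
      exact ⟨B, fun _ _ => hB⟩
    · exact ⟨∅, fun h1 h2 => absurd ⟨h1, h2⟩ hJI⟩
  choose BJ hBJ using hBJ
  have hexp : ∀ s : ℝ, Real.exp (s * Real.log (2 * N)) = (2 * (N : ℝ)) ^ s := by
    intro s
    rw [mul_comm s, ← Real.rpow_def_of_pos (by positivity)]
  refine ⟨(I.powersetCard h).biUnion BJ, ?_, ?_⟩
  · have h1 : (((I.powersetCard h).biUnion BJ).card : ℝ) ≤ ∑ J ∈ I.powersetCard h, ((BJ J).card : ℝ) := by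
      exact_mod_cast card_biUnion_le
    have h2 : ∑ J ∈ I.powersetCard h, ((BJ J).card : ℝ) ≤
        (∑ J ∈ I.powersetCard h, C J) * (2 * (N : ℝ)) ^ (1 - (1 / (K : ℝ)) ^ 2) := by
      rw [sum_mul]
      apply sum_le_sum
      intro J hJ
      rw [mem_powersetCard] at hJ
      have := (hBJ J hJ.1 hJ.2).1
      rwa [hexp] at this
    have h3 : (2 * (N : ℝ)) ^ (1 - (1 / (K : ℝ)) ^ 2) ≤ 2 * (N : ℝ) ^ (1 - (1 / (K : ℝ)) ^ 2) := by
      rw [Real.mul_rpow (by norm_num) hN0.le]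
      apply mul_le_mul_of_nonneg_right _ (by positivity)
      calc (2 : ℝ) ^ (1 - (1 / (K : ℝ)) ^ 2) ≤ 2 ^ (1 : ℝ) :=
            Real.rpow_le_rpow_of_exponent_le (by norm_num) (by nlinarith [sq_nonneg (1 / (K : ℝ))])
        _ = 2 := by norm_num
    have h4 : 0 ≤ (N : ℝ) ^ (1 - (1 / (K : ℝ)) ^ 2) := by positivity
    nlinarith
  · intro p hpp hpH hpN hpl hpB
    have hp10 : 0 < p - 1 := by have := hpp.two_le; omega
    have hsub : I.filter (fun i => ∃ l : ℕ, l.Prime ∧ ¬ l ∣ Wm ∧ l ∣ p - 1 ∧ P i p l) ⊆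
        ((p - 1).primeFactors.filter (fun l : ℕ => (N : ℝ) ^ δ ≤ l)).biUnion
          (fun l => I.filter (fun i => 3 ≤ l ∧ P i p l)) := by
      intro i hi
      rw [mem_filter] at hi
      obtain ⟨hiI, l, hl, hlW, hlp, hPi⟩ := hi
      rw [mem_biUnion]
      have hl2 : l ≠ 2 := fun h2 => hlW (h2 ▸ h2W)
      have hl3 : 3 ≤ l := by have := hl.two_le; omega
      exact ⟨l, mem_filter.2 ⟨Nat.mem_primeFactors.2 ⟨hl, hlp, by omega⟩, hpl l hl hlW hlp⟩,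
        mem_filter.2 ⟨hiI, hl3, hPi⟩⟩
    refine (card_le_card hsub).trans (card_biUnion_le.trans ((sum_le_card_nsmul _ _ (h - 1) ?_).trans ?_))
    · intro l hl
      rw [mem_filter, Nat.mem_primeFactors] at hl
      obtain ⟨⟨hl, hlp, -⟩, hlz⟩ := hl
      by_contra hcon
      obtain ⟨J, hJs, hJc⟩ := exists_subset_card_eq
        (show h ≤ (I.filter (fun i => 3 ≤ l ∧ P i p l)).card by omega)
      have hJI : J ⊆ I := hJs.trans (filter_subset _ _)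
      have hJm : J ∈ I.powersetCard h := mem_powersetCard.2 ⟨hJI, hJc⟩
      obtain ⟨i₀, hi₀⟩ : J.Nonempty := by rw [← card_pos]; omega
      have hl2 : 3 ≤ l := (mem_filter.1 (hJs hi₀)).2.1
      refine (hBJ J hJI hJc).2 p l hpp ?_ (fun h1 => hpB (mem_biUnion.2 ⟨J, hJm, h1⟩)) hl hl2 hlp ?_
        (fun i hi => (mem_filter.1 (hJs hi)).2.2)
      · have := Finset.single_le_sum (f := HJ) (fun j _ => Nat.zero_le _) hJm
        omega
      · refine Nat.cast_div_le.trans ?_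
        have hNd : (0 : ℝ) < (N : ℝ) ^ δ := by positivity
        have e1 : ((p - 1 : ℕ) : ℝ) ≤ 2 * N := by
          have : p - 1 ≤ 2 * N := by omega
          exact_mod_cast this
        have e2 : ((p - 1 : ℕ) : ℝ) / l ≤ 2 * N / (N : ℝ) ^ δ := by gcongr
        refine e2.trans ?_
        rw [hexp, Real.rpow_sub (by positivity), Real.rpow_one]
        apply div_le_div_of_nonneg_left (by positivity) (by positivity)
        calc (2 * (N : ℝ)) ^ (1 / (K : ℝ)) ≤ ((N : ℝ) ^ (2 : ℝ)) ^ (1 / (K : ℝ)) := by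
              apply Real.rpow_le_rpow (by positivity) _ (by positivity)
              norm_num
              nlinarith
          _ = (N : ℝ) ^ (2 * (1 / (K : ℝ))) := by rw [← Real.rpow_mul hN0.le]
          _ ≤ (N : ℝ) ^ δ := by
              apply Real.rpow_le_rpow_of_exponent_le (by linarith)
              rw [div_le_iff₀ hδ] at hKd
              rw [mul_one_div, div_le_iff₀ hK0]
              linarith
    · rw [smul_eq_mul]
      apply Nat.mul_le_mul_right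
      rw [hKδ]
      apply few_large δ hδ N hN (p - 1) (by omega)
      calc p - 1 ≤ 2 * N := by omega
        _ ≤ N ^ 2 := by nlinarith

end Pool.Agent.R498.MX
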