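import Pool.Agent.R498.MX.MX13

/-!
Strings of consecutive primes and groups of rational numbers: the theorem for finite families.
-/

set_option autoImplicit false

namespace Pool.Agent.R498.MX

open Finset Filter

open Classical in
/-- **Strings of consecutive primes at which the indices of the groups of a family divide `κ`.** -/
theorem grpX (r : ℕ) : ∃ R C B : ℕ, 1 ≤ R ∧ ∀ m a κ h : ℕ, 0 < m → a.Coprime m → 0 < κ → 1 ≤ h →
    (∀ l : ℕ, l.Prime → l ≠ 2 → l ∣ m → ¬ a ≡ 1 [MOD Nat.gcd m (l ^ (κ.factorization l + 1))]) →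
    ∀ I : Finset (Subgroup ℚˣ), (∀ W ∈ I, W.FG) →
    (∀ W ∈ I, (∃ N₀ : ℕ, ∀ q : ℕ, N₀ < q → q.Prime → q ≡ a [MOD m] →
        ∃ w ∈ W, ¬ IsSquare (((w : ℚ).num * (w : ℚ).den : ℤ) : ZMod q)) ∨
      ¬ a ≡ 1 [MOD Nat.gcd m (2 ^ (κ.factorization 2 + 1))]) →
    (∀ J ⊆ I, J.card = h → ∃ b : Fin R → ℚˣ, (∀ j, b j ∈ sSup (J : Set (Subgroup ℚˣ))) ∧
      ∀ e : Fin R → ℤ, ∏ j, b j ^ e j = 1 → ∀ j, e j = 0) →
    ∃ S : ℕ, ∀ᶠ N : ℕ in atTop, #{W ∈ I | ¬ (N : ℝ) ≤ Real.log N ^ B * #{n ∈ Ioc N (2 * N) |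
      r < #{p ∈ Icc n (n + S) | p.Prime} ∧ ∀ p ∈ Icc n (n + S), ∀ hp : p.Prime,
        p ≡ a [MOD m] ∧ W ≤ Qs p hp 0 ∧ (img p W).index ∣ κ}} ≤ C * (h - 1) := by
  obtain ⟨k, P₀, B, δ, hδ, hδ1, hP₀, hfam⟩ := famX r
  obtain ⟨K, hK⟩ : ∃ K : ℕ, K = ⌈2 / δ⌉₊ := ⟨_, rfl⟩
  have hK1 : 1 ≤ K := by
    rw [hK]
    exact Nat.one_le_ceil_iff.2 (by positivity)
  refine ⟨K, 2 * 2 ^ k * K, B, hK1, fun m a κ h hm ham hκ hh ha1 I hFG hWc hJ => ?_⟩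
  obtain ⟨Wm, hWm⟩ : ∃ Wm : ℕ, Wm = m * primorial P₀ := ⟨_, rfl⟩
  have hW0 : 0 < Wm := by rw [hWm]; exact Nat.mul_pos hm (primorial_pos P₀)
  have hWp : ∀ p : ℕ, p.Prime → p ≤ P₀ → p ∣ Wm := fun p hp hpP => by
    rw [hWm]
    exact (hp.dvd_primorial_iff.2 hpP).mul_left m
  have h2W : 2 ∣ Wm := hWp 2 Nat.prime_two hP₀
  have hmW : m ∣ Wm := by rw [hWm]; exact dvd_mul_right m _
  obtain ⟨c, hcW, hc1, hca⟩ := class_exX m a ham P₀
  rw [← hWm] at hcW hc1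
  obtain ⟨S, hS⟩ := hfam Wm hW0 hWp
  refine ⟨S, ?_⟩
  -- the units
  have hun : ∀ W : Subgroup ℚˣ, ∃ H : ℕ, W ∈ I → ∀ p : ℕ, ∀ hp : p.Prime, H < p → W ≤ Qs p hp 0 := by
    intro W
    by_cases hW : W ∈ I
    · obtain ⟨H, hH⟩ := fg_units W (hFG W hW)
      exact ⟨H, fun _ => hH⟩
    · exact ⟨0, fun h => absurd h hW⟩
  choose HW hHW using hun
  obtain ⟨H₀, hH₀⟩ : ∃ H₀ : ℕ, H₀ = ∑ W ∈ I, HW W := ⟨_, rfl⟩
  have hH₀W : ∀ W ∈ I, ∀ p : ℕ, ∀ hp : p.Prime, H₀ < p → W ≤ Qs p hp 0 := by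
    intro W hW p hp hpH
    apply hHW W hW p hp
    have := Finset.single_le_sum (f := HW) (fun j _ => Nat.zero_le _) hW
    omega
  -- the bounds for the non-residues
  have hnr : ∀ W : Subgroup ℚˣ, ∃ N₀ : ℕ, W ∈ I → (∀ q : ℕ, N₀ < q → q.Prime → q ≡ a [MOD m] →
      ∃ w ∈ W, ¬ IsSquare (((w : ℚ).num * (w : ℚ).den : ℤ) : ZMod q)) ∨
      ¬ a ≡ 1 [MOD Nat.gcd m (2 ^ (κ.factorization 2 + 1))] := by
    intro W
    by_cases hW : W ∈ I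
    · rcases hWc W hW with ⟨N₀, h1⟩ | h1
      · exact ⟨N₀, fun _ => Or.inl h1⟩
      · exact ⟨0, fun _ => Or.inr h1⟩
    · exact ⟨0, fun h => absurd h hW⟩
  choose NW hNW using hnr
  obtain ⟨C₁, H, hC₁, hgm⟩ := gmfamX δ hδ K hK I h hh Wm h2W
    (fun W p l => ∃ hp : p.Prime, W ≤ Qs p hp ((p - 1) / l)) H₀ (by
      intro J hJI hJc
      obtain ⟨b, hb1, hb2⟩ := hJ J hJI hJc
      refine ⟨fun j => ((b j : ℚˣ) : ℚ), fun j => (b j).ne_zero, ?_, ?_⟩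
      · intro e he
        apply hb2 e
        apply Units.ext
        rw [Units.val_one, ← he]
        push_cast
        rfl
      · intro p l hp hpH hl hl3 hlp hall j
        have h1 : sSup (J : Set (Subgroup ℚˣ)) ≤ Qs p hp ((p - 1) / l) := by
          apply sSup_le
          intro W hW
          obtain ⟨_, h2⟩ := hall W hW
          exact h2
        have h2 := h1 (hb1 j)
        rw [Qs_mem] at h2
        exact h2.2)
  have hfam2 := hS c hcW (Subgroup ℚˣ) I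
    (fun W p => ∃ l : ℕ, l.Prime ∧ ¬ l ∣ Wm ∧ l ∣ p - 1 ∧ ∃ hp : p.Prime, W ≤ Qs p hp ((p - 1) / l))
    (K * (h - 1)) C₁ ((1 / (K : ℝ)) ^ 2) hC₁ (by positivity) (by
      filter_upwards [eventually_ge_atTop (H + 2)] with N hN
      obtain ⟨Bs, hB1, hB2⟩ := hgm N (by omega)
      exact ⟨Bs, hB1, fun p hp hNp hp2 _ hpl hpB => hB2 p hp (by omega) hp2 hpl hpB⟩)
  filter_upwards [hfam2, eventually_ge_atTop (H₀ + I.sup NW + 3)] with N hN hNb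
  have h0 : 2 * 2 ^ k * K * (h - 1) = 2 * (2 ^ k * (K * (h - 1))) := by ring
  rw [h0]
  refine (card_le_card ?_).trans hN
  intro W hW
  rw [mem_filter] at hW ⊢
  refine ⟨hW.1, fun hcon => hW.2 ?_⟩
  refine hcon.trans ?_
  apply mul_le_mul_of_nonneg_left _ (by positivity)
  norm_cast
  apply card_le_card
  intro n hn
  rw [mem_filter] at hn ⊢
  refine ⟨hn.1, hn.2.1, fun p hp hpp => ?_⟩
  have hNn := (mem_Ioc.1 hn.1).1
  have hnp := (mem_Icc.1 hp).1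
  obtain ⟨hpc, hnb⟩ := hn.2.2 p hp hpp
  have hNWs : NW W ≤ I.sup NW := Finset.le_sup (f := NW) hW.1
  have hpa : p ≡ a [MOD m] := (hpc.of_dvd hmW).trans hca
  have hWu : W ≤ Qs p hpp 0 := hH₀W W hW.1 p hpp (by omega)
  refine ⟨hpa, hWu, index_dvdX p hpp (by omega) W hWu κ hκ fun l hl => ?_⟩
  have hgcd : ∀ e : ℕ, e ∣ p - 1 → ¬ a ≡ 1 [MOD Nat.gcd m e] → False := by
    intro e he hna
    apply hna
    have h1 : 1 ≡ p [MOD e] := (Nat.modEq_iff_dvd' hpp.one_lt.le).2 he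
    exact (hpa.of_dvd (Nat.gcd_dvd_left m e)).symm.trans (h1.symm.of_dvd (Nat.gcd_dvd_right m e))
  by_cases hlW : l ∣ Wm
  · by_cases hl2 : l = 2
    · subst hl2
      rcases hNW W hW.1 with h1 | h1
      · right
        rintro ⟨-, h2⟩
        exact nonres p hpp (by omega) W (h1 p (by omega) hpp hpa) h2
      · left
        intro hd
        exact hgcd _ hd h1
    · left
      intro hd
      by_cases hlm : l ∣ m
      · exact hgcd _ hd (ha1 l hl hl2 hlm)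
      · apply hc1 l hl hlW hlm hl2
        have h1 : l ∣ p - 1 := (dvd_pow_self l (by omega)).trans hd
        have h2 : 1 ≡ p [MOD l] := (Nat.modEq_iff_dvd' hpp.one_lt.le).2 h1
        exact (hpc.of_dvd hlW).symm.trans h2.symm
  · right
    rintro ⟨hld, h2⟩
    exact hnb ⟨l, hl, hlW, hld, hpp, h2⟩

end Pool.Agent.R498.MX
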