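import Pool.Agent.R498.MX.MX6

/-!
Strings of primes `p` in a class modulo `W` with rough `F(p)`, with constants independent of `W`.
-/

set_option autoImplicit false
set_option linter.unusedSectionVars false

namespace Pool.Agent.R498.MX

open Finset Filter Polynomial
open Pool.Agent.R498.MP
open Pool.Agent.R498.MT
open Pool.Agent.Y677.RSZ (rt Sys rhoT per_mod ev_log V eng_all)
open Pool.Agent.TH423.SH (PS PIj)
open Pool.Agent.W23.DC
open Pool.Agent.Y882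
open Pool.Agent.Y882.PX
open Pool.Agent.Y882.KW

open Classical in
/-- the arguments with a given set of prime slots, and without the other primes -/
theorem manyPX (F : ℤ → ℤ) (W b M L z N k m : ℕ) (ε₁ c V : ℝ) (t : Fin (2 ^ k) → ℕ)
    (E : Finset ℕ) (β : ℕ → ℕ) (hc : 0 < c) (hV : 0 < V) (hL : (0 : ℝ) < L)
    (hz1 : (z : ℝ) < (N : ℝ) ^ ε₁)
    (hgd : c * (L * V) ≤ ((gpX F N ε₁ W b t m M L).card : ℝ))
    (hE : ∀ y ∈ E, ∀ s : Finset ℕ, (∀ K ∈ s, K ∈ Ioc M (M + L) ∧ (W * K + β y).Prime ∧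
          ∀ p ∈ PS W z, ∀ i, ¬ (p : ℤ) ∣ F ((W * (K + t i) + b : ℕ) : ℤ)) →
        (s.card : ℝ) ≤ c / (2 * (E.card + 1)) * (L * V)) :
    ∃ (Hs : Finset (Fin (2 ^ k))) (A : Finset ℕ), m < Hs.card ∧
      c / (2 * 2 ^ 2 ^ k) * (L * V) ≤ A.card ∧
      ∀ K ∈ A, K ∈ Ioc M (M + L) ∧ (∀ p : ℕ, p.Prime → ¬ p ∣ W → (p : ℝ) < (N : ℝ) ^ ε₁ → ∀ i,
          ¬ (p : ℤ) ∣ F ((W * (K + t i) + b : ℕ) : ℤ)) ∧
        (∀ i, (W * (K + t i) + b).Prime ↔ i ∈ Hs) ∧ ∀ y ∈ E, ¬ (W * K + β y).Prime := by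
  have hX : 0 ≤ (L : ℝ) * V := by positivity
  obtain ⟨Gd, hGd⟩ : ∃ Gd, Gd = gpX F N ε₁ W b t m M L := ⟨_, rfl⟩
  rw [← hGd] at hgd
  have hmem : ∀ K ∈ Gd, K ∈ Ioc M (M + L) ∧ (∀ p : ℕ, p.Prime → ¬ p ∣ W → (p : ℝ) < (N : ℝ) ^ ε₁ → ∀ i,
      ¬ (p : ℤ) ∣ F ((W * (K + t i) + b : ℕ) : ℤ)) ∧
      m < (univ.filter (fun i => (W * (K + t i) + b).Prime)).card := by
    intro K hK
    rw [hGd] at hK
    unfold gpX at hK
    rw [mem_filter] at hK
    refine ⟨hK.1, hK.2.1, ?_⟩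
    have h3 := hK.2.2
    convert h3
  have h1 := discard_sets Gd E (fun y => Gd.filter (fun K => (W * K + β y).Prime)) c (L * V) hX
    hgd (by
    intro y hy
    apply hE y hy
    intro K hK
    have hK' := mem_filter.1 hK
    obtain ⟨g1, g2, -⟩ := hmem K hK'.1
    refine ⟨g1, hK'.2, ?_⟩
    intro p hp i
    unfold PS at hp
    rw [mem_filter, mem_Icc] at hp
    apply g2 p hp.2.1 hp.2.2 _ i
    have : (p : ℝ) ≤ z := by exact_mod_cast hp.1.2
    linarith) hc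
  obtain ⟨G', hG'⟩ : ∃ G', G' = Gd \ E.biUnion (fun y => Gd.filter (fun K =>
    (W * K + β y).Prime)) := ⟨_, rfl⟩
  have h1' : c / 2 * (L * V) ≤ (G'.card : ℝ) := by
    rw [hG']
    exact h1
  have hG'2 : ∀ K ∈ G', K ∈ Gd ∧ ∀ y ∈ E, ¬ (W * K + β y).Prime := by
    intro K hK
    have hK := Finset.mem_sdiff.1 (hG' ▸ hK)
    refine ⟨hK.1, fun y hy h => hK.2 ?_⟩
    rw [mem_biUnion]
    exact ⟨y, hy, mem_filter.2 ⟨hK.1, h⟩⟩
  have hpos : 0 < c / 2 * (L * V) := by positivity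
  have hne : G'.Nonempty := by
    rw [← card_pos]
    have : (0 : ℝ) < (G'.card : ℝ) := hpos.trans_le h1'
    exact_mod_cast this
  obtain ⟨Hs, hHs, hle⟩ := pigE (2 ^ k) m G' (fun K => univ.filter (fun i =>
      (W * (K + t i) + b).Prime)) hne (by
    intro K hK
    exact (hmem K (hG'2 K hK).1).2.2)
  refine ⟨Hs, G'.filter (fun K => univ.filter (fun i => (W * (K + t i) + b).Prime) = Hs), hHs,
    ?_, ?_⟩
  · rw [div_mul_eq_mul_div, div_le_iff₀ (by positivity)]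
    have h3 : ((G'.card : ℕ) : ℝ) ≤ 2 ^ 2 ^ k *
        ((G'.filter (fun K => univ.filter (fun i => (W * (K + t i) + b).Prime) = Hs)).card : ℝ) := by
      exact_mod_cast hle
    have h4 : c / 2 * (L * V) * 2 = c * (L * V) := by ring
    linarith
  · intro K hK
    rw [mem_filter] at hK
    have hK1 := hG'2 K hK.1
    obtain ⟨g1, g2, -⟩ := hmem K hK1.1
    refine ⟨g1, g2, fun i => ?_, hK1.2⟩
    rw [← hK.2, mem_filter]
    simp only [mem_univ, true_and]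


open Classical in
/-- **Strings of primes in a class modulo `W` with rough values, the constants not depending on `W`.** -/
theorem runsX (g m : ℕ) (hg1 : 1 ≤ g) :
    ∃ (k P₀ B : ℕ) (δ : ℝ), 0 < δ ∧ ∀ W : ℕ, 0 < W → (∀ p : ℕ, p.Prime → p ≤ P₀ → p ∣ W) →
      ∀ HH : Finset ℕ, W * 2 ^ k ≤ HH.card → ∀ E : Finset ℕ, ∀ C₀ A : ℕ,
      ∀ᶠ N : ℕ in atTop, ∀ F : ℤ → ℤ, SysX W g F →
      (∀ p : ℕ, p.Prime → ∀ n : ℤ, (p : ℤ) ∣ n → (p : ℤ) ∣ F n) →
      (∀ h ∈ HH, ∀ y ∈ E, y ≠ h → F ((h : ℤ) - y) ≠ 0 ∧ (F ((h : ℤ) - y)).natAbs ≤ N ^ A) →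
      ∀ a₀ : ℕ, a₀.Coprime W →
      ∃ H ⊆ HH, m < H.card ∧ H.card ≤ 2 ^ k ∧
        ∃ T : Finset ℕ, (N : ℝ) ≤ Real.log N ^ B * T.card ∧
        ∀ n ∈ T, N < n ∧ n + C₀ ≤ 2 * N ∧
          (∀ h ∈ H, (n + h).Prime ∧ n + h ≡ a₀ [MOD W]) ∧
          (∀ h ∈ H, ∀ p : ℕ, p.Prime → ¬ p ∣ W → (p : ℤ) ∣ F ((n + h : ℕ) : ℤ) → (N : ℝ) ^ δ ≤ p) ∧
          ∀ y ∈ E, y ∉ H → ¬ (n + y).Prime := by
  obtain ⟨k, P₀, ε₁, c, hP₀, hε, hε24, hc, hcore⟩ := coreX g m hg1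
  refine ⟨k, P₀, 2 * (g * 2 ^ k) + 2, ε₁, hε, ?_⟩
  intro W hW0 hWp HH hHH E C₀ A
  have hW2 : 2 ≤ W := by
    have h1 : 2 ∣ W := hWp 2 Nat.prime_two (by omega)
    exact Nat.le_of_dvd hW0 h1
  obtain ⟨r, t, hrW, ht, hmem⟩ := shifts W (2 ^ k) hW0 HH hHH
  obtain ⟨E', hE'⟩ : ∃ E', E' = E.filter (fun y => ∀ i, W * t i + r ≠ y) := ⟨_, rfl⟩
  have hc1 : ∀ᶠ N : ℕ in atTop, ∀ b ∈ (Finset.range (2 * W)).filter (fun b => b.Coprime W),
        ∀ F : ℤ → ℤ, SysX W g F →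
        (∀ p : ℕ, p.Prime → ∀ n : ℤ, (p : ℤ) ∣ n → (p : ℤ) ∣ F n) → ∀ M L z : ℕ, Win W N M L →
        (z : ℝ) < (N : ℝ) ^ ε₁ → (N : ℝ) ^ ε₁ ≤ z + 1 →
        c * (L * Vp F W b z t) ≤ ((gpX F N ε₁ W b t m M L).card : ℝ) ∧
        0 < Vp F W b z t ∧ 1 ≤ Real.log N ^ (2 * (g * 2 ^ k) + 1) * Vp F W b z t := by
    rw [Finset.eventually_all]
    intro b hb
    obtain ⟨Y₀, hY₀⟩ := (hcore W hW0 hWp t ht b (mem_filter.1 hb).2).1
    filter_upwards [eventually_ge_atTop Y₀] with N hN F h1 h2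
    exact hY₀ F h1 h2 N hN
  have hc2 : ∀ᶠ N : ℕ in atTop, ∀ b ∈ (Finset.range (2 * W)).filter (fun b => b.Coprime W),
        ∀ y ∈ E', ∀ F : ℤ → ℤ, SysX W g F →
        (∀ j, F (((W * t j + b : ℕ) : ℤ) - ((b - r + y : ℕ) : ℤ)) ≠ 0 ∧
          (F (((W * t j + b : ℕ) : ℤ) - ((b - r + y : ℕ) : ℤ))).natAbs ≤ N ^ A) →
        ∀ M L z : ℕ, Win W N M L → (z : ℝ) < (N : ℝ) ^ ε₁ →
        0 < Vp F W b z t → 1 ≤ Real.log N ^ (2 * (g * 2 ^ k) + 1) * Vp F W b z t →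
        ∀ s : Finset ℕ,
        (∀ K ∈ s, K ∈ Ioc M (M + L) ∧ (W * K + (b - r + y)).Prime ∧
          ∀ p ∈ PS W z, ∀ i, ¬ (p : ℤ) ∣ F ((W * (K + t i) + b : ℕ) : ℤ)) →
        (s.card : ℝ) ≤ c / (2 * (E'.card + 1)) * (L * Vp F W b z t) := by
    rw [Finset.eventually_all]
    intro b hb
    rw [Finset.eventually_all]
    intro y _
    obtain ⟨Y₀, hY₀⟩ := (hcore W hW0 hWp t ht b (mem_filter.1 hb).2).2 (b - r + y) (c / (2 * (E'.card + 1))) (by positivity) A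
    filter_upwards [eventually_ge_atTop Y₀] with N hN F h1 h2
    exact hY₀ F h1 N hN h2
  have hlog : ∀ᶠ N : ℕ in atTop, 16 * W * 2 ^ 2 ^ k / c ≤ Real.log (N : ℝ) :=
    (Real.tendsto_log_atTop.comp tendsto_natCast_atTop_atTop).eventually_ge_atTop _
  filter_upwards [hc1, hc2, hlog, numsE W r (2 * W) 0 0 0 0 C₀ hW2 hrW] with N hN1 hN2 hN3 hN4
  obtain ⟨-, n2, n3, -, n5, -, n7, n8, n9, -⟩ := hN4
  intro F hF hFid hEH a₀ ha₀
  obtain ⟨b, hbd⟩ : ∃ b, b = W + a₀ % W := ⟨_, rfl⟩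
  have hb₁W : a₀ % W < W := Nat.mod_lt _ hW0
  have hbmod : b ≡ a₀ [MOD W] := by
    rw [hbd]
    unfold Nat.ModEq
    rw [Nat.add_mod_left, Nat.mod_mod]
  have hbcop : b.Coprime W := by
    have h1 := hbmod.gcd_eq
    rw [Nat.coprime_iff_gcd_eq_one, h1]
    exact ha₀
  have hb2 : b ∈ (Finset.range (2 * W)).filter (fun b => b.Coprime W) := by
    rw [mem_filter, mem_range]
    exact ⟨by omega, hbcop⟩
  obtain ⟨M, hM⟩ : ∃ M : ℕ, M = (N + r) / W := ⟨_, rfl⟩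
  obtain ⟨L, hL⟩ : ∃ L : ℕ, L = N / (2 * W) := ⟨_, rfl⟩
  rw [← hM, ← hL] at n5
  rw [← hL] at n7 n8 n9
  have hNr : (16 : ℝ) ≤ N := by exact_mod_cast n2
  have hN0 : (0 : ℝ) < N := by linarith
  have hN1r : (1 : ℝ) ≤ N := by linarith
  obtain ⟨z, hz⟩ : ∃ z : ℕ, z + 1 = ⌈(N : ℝ) ^ ε₁⌉₊ := by
    have : 1 ≤ ⌈(N : ℝ) ^ ε₁⌉₊ := Nat.ceil_pos.2 (by positivity)
    exact ⟨⌈(N : ℝ) ^ ε₁⌉₊ - 1, by omega⟩
  have hz1 : (z : ℝ) < (N : ℝ) ^ ε₁ := by
    have h1 := Nat.ceil_lt_add_one (show 0 ≤ (N : ℝ) ^ ε₁ by positivity)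
    rw [← hz] at h1
    push_cast at h1
    linarith
  have hz2 : (N : ℝ) ^ ε₁ ≤ z + 1 := by
    have h1 := Nat.le_ceil ((N : ℝ) ^ ε₁)
    rw [← hz] at h1
    push_cast at h1
    exact h1
  obtain ⟨hgd, hV0, hV1⟩ := hN1 b hb2 F hF hFid M L z n5 hz1 hz2
  have hWL1 : 1 ≤ W * L := by
    have h1 : (1 : ℝ) ≤ ((W * L : ℕ) : ℝ) := le_trans (Real.one_le_rpow hN1r (by norm_num)) n7
    exact_mod_cast h1
  have hL1 : 1 ≤ L := by
    rcases Nat.eq_zero_or_pos L with h | h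
    · rw [h, mul_zero] at hWL1
      omega
    · exact h
  have hLr : (0 : ℝ) < L := by exact_mod_cast hL1
  have hW0r : (0 : ℝ) < W := by exact_mod_cast hW0
  obtain ⟨Hs, T, hHs, hA1, hA2⟩ := manyPX F W b M L z N k m
    ε₁ c (Vp F W b z t) t E' (fun y => b - r + y) hc hV0
    hLr hz1 hgd (fun y hy s hs => hN2 b hb2 y hy F hF (by
      intro j
      rw [hE', mem_filter] at hy
      have e : ((W * t j + b : ℕ) : ℤ) - ((b - r + y : ℕ) : ℤ) = ((W * t j + r : ℕ) : ℤ) - y := by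
        have : r ≤ b := by omega
        push_cast [this]
        ring
      rw [e]
      exact hEH _ (hmem j) y hy.1 (fun h => hy.2 j h.symm)) M L z n5 hz1 hV0 hV1 s hs)
  have hWM : W * M ≤ N + r := by rw [hM]; exact Nat.mul_div_le _ _
  have hWM1 : N + r < W * (M + 1) := by
    rw [hM]
    exact Nat.lt_mul_div_succ (N + r) hW0
  have hWM2 : W * (M + 1) = W * M + W := by ring
  have hWML : W * (M + L) = W * M + W * L := by ring
  have hbds : ∀ K ∈ Ioc M (M + L), N + r < W * K ∧ W * K + b ≤ N + r + W * L + b := by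
    intro K hK
    rw [mem_Ioc] at hK
    have h2 : W * (M + 1) ≤ W * K := Nat.mul_le_mul_left _ (by omega)
    have h3 : W * K ≤ W * (M + L) := Nat.mul_le_mul_left _ hK.2
    exact ⟨by omega, by omega⟩
  refine ⟨Hs.image (fun i => W * t i + r), ?_, ?_, ?_, T.image (fun K => W * K + b - r), ?_, ?_⟩
  · intro h hh
    rw [mem_image] at hh
    obtain ⟨i, _, rfl⟩ := hh
    exact hmem i
  · rw [card_image_of_injective _ (fun i j hij => by
      have h1 : W * t i + r = W * t j + r := hij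
      have h2 : W * t i = W * t j := by omega
      exact ht (Nat.eq_of_mul_eq_mul_left hW0 h2))]
    exact hHs
  · exact card_image_le.trans ((card_le_univ Hs).trans (by rw [Fintype.card_fin]))
  · -- the count
    rw [card_image_of_injective _ (fun K K' hKK => by
      have h1 : W * K + b - r = W * K' + b - r := hKK
      have h2 : W * K = W * K' := by omega
      exact Nat.eq_of_mul_eq_mul_left hW0 h2)]
    obtain ⟨-, -, -, w4, -⟩ := n5
    have w4r : (N : ℝ) ≤ 8 * (W * L) := by exact_mod_cast w4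
    obtain ⟨X, hX⟩ : ∃ X : ℝ, X = Real.log N ^ (2 * (g * 2 ^ k) + 1) := ⟨_, rfl⟩
    have hlN : 0 < Real.log N := Real.log_pos (by linarith)
    have hX0 : 0 < X := by rw [hX]; positivity
    rw [← hX] at hV1
    have h1 : (L : ℝ) ≤ X * (L * Vp F W b z t) := by nlinarith
    have h2 : c / (2 * 2 ^ 2 ^ k) * L ≤ X * T.card := by
      have h3 := mul_le_mul_of_nonneg_left hA1 hX0.le
      have h4 := mul_le_mul_of_nonneg_left h1 (show 0 ≤ c / (2 * 2 ^ 2 ^ k) by positivity)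
      linarith
    have h5 : c * N ≤ 16 * W * 2 ^ 2 ^ k * (X * T.card) := by
      have h6 : c * L ≤ 2 * 2 ^ 2 ^ k * (X * T.card) := by
        rw [div_mul_eq_mul_div, div_le_iff₀ (by positivity)] at h2
        linarith
      have h7 := mul_le_mul_of_nonneg_left h6 (show (0 : ℝ) ≤ 8 * W by positivity)
      have h8 := mul_le_mul_of_nonneg_left w4r hc.le
      linarith
    have h9 : 16 * W * 2 ^ 2 ^ k ≤ Real.log N * c := by
      rwa [div_le_iff₀ hc] at hN3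
    have h10 : c * N ≤ c * (Real.log N * (X * T.card)) := by
      have := mul_le_mul_of_nonneg_right h9 (show 0 ≤ X * T.card by positivity)
      linarith
    have h11 := le_of_mul_le_mul_left h10 hc
    refine h11.trans (le_of_eq ?_)
    rw [hX, pow_succ (Real.log (N : ℝ)) (2 * (g * 2 ^ k) + 1)]
    ring
  · intro n hn
    rw [mem_image] at hn
    obtain ⟨K, hK, hKn⟩ := hn
    obtain ⟨hK1', hK2', hK3', hK4'⟩ := hA2 K hK
    have hbK := hbds K hK1'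
    have e : ∀ i, n + (W * t i + r) = W * (K + t i) + b := by
      intro i
      have h1 : W * (K + t i) = W * K + W * t i := by ring
      omega
    refine ⟨by omega, by omega, ?_, ?_, ?_⟩
    · intro h hh
      rw [mem_image] at hh
      obtain ⟨i, hi, rfl⟩ := hh
      rw [e i]
      refine ⟨(hK3' i).2 hi, ?_⟩
      have h1 : W * (K + t i) ≡ 0 [MOD W] := (Nat.modEq_zero_iff_dvd).2 (dvd_mul_right _ _)
      have h3 := h1.add hbmod
      simpa using h3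
    · intro h hh p hp hpW hpd
      rw [mem_image] at hh
      obtain ⟨i, hi, rfl⟩ := hh
      rw [e i] at hpd
      by_contra hcon
      push Not at hcon
      exact hK2' p hp hpW hcon i hpd
    · intro y hy hyH
      by_cases hyE : y ∈ E'
      · have h1 := hK4' y hyE
        have e2 : n + y = W * K + (b - r + y) := by
          have : r ≤ b := by omega
          omega
        rw [e2]
        exact h1
      · rw [hE', mem_filter] at hyE
        push Not at hyE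
        obtain ⟨i, hi⟩ := hyE hy
        rw [← hi, e i]
        intro hpr
        apply hyH
        rw [mem_image]
        exact ⟨i, (hK3' i).1 hpr, hi⟩

end Pool.Agent.R498.MX
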