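import Pool.Agent.R498.MX.MX7

/-!
Strings of consecutive primes `p` in a class modulo `W` for which all the prime factors of `p - 1` not
dividing `W` are large, with constants not depending on `W`.
-/

set_option autoImplicit false

namespace Pool.Agent.R498.MX

open Finset Filter
open Pool.Agent.Y677.RSZ (rt)

theorem sysX_self (W : ℕ) : SysX W 2 (fun n : ℤ => n * (n - 1)) := by
  refine ⟨?_, ?_⟩
  · intro p _ _ n
    refine ⟨2 * n + p - 1, ?_⟩
    ring
  · intro p hp _
    unfold rt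
    have hsub : (range p).filter (fun r : ℕ => (p : ℤ) ∣ (r : ℤ) * ((r : ℤ) - 1)) ⊆ {0, 1} := by
      intro r hr
      rw [mem_filter, mem_range] at hr
      obtain ⟨hr1, hr2⟩ := hr
      rw [mem_insert, mem_singleton]
      rcases (Nat.prime_iff_prime_int.1 hp).dvd_or_dvd hr2 with h | h
      · left
        have h1 : p ∣ r := by exact_mod_cast h
        exact Nat.eq_zero_of_dvd_of_lt h1 hr1
      · right
        rcases Nat.eq_zero_or_pos r with h0 | h0
        · subst h0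
          have h2 : (p : ℤ) ∣ 1 := by
            have h3 := (dvd_neg (a := (p : ℤ))).2 h
            simpa using h3
          have h3 : p ∣ 1 := by exact_mod_cast h2
          exact absurd (Nat.dvd_one.1 h3) hp.one_lt.ne'
        · have h1 : p ∣ r - 1 := by
            have h2 : ((r - 1 : ℕ) : ℤ) = (r : ℤ) - 1 := by push_cast [h0]; ring
            rw [← h2] at h
            exact_mod_cast h
          have h2 := Nat.eq_zero_of_dvd_of_lt h1 (by omega)
          omega
    refine (card_le_card hsub).trans ?_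
    exact (card_insert_le _ _).trans (by simp)

open Classical in
/-- **Strings of consecutive primes with `p - 1` free of small primes outside `W`.** -/
theorem strings (m : ℕ) :
    ∃ (k P₀ B : ℕ) (δ : ℝ), 0 < δ ∧ 2 ≤ P₀ ∧
      ∀ W : ℕ, 0 < W → (∀ p : ℕ, p.Prime → p ≤ P₀ → p ∣ W) → ∃ S : ℕ, ∀ᶠ N : ℕ in atTop,
      ∀ a₀ : ℕ, a₀.Coprime W →
      ∃ H : Finset ℕ, m < H.card ∧ H.card ≤ 2 ^ k ∧ (∀ h ∈ H, h ≤ S) ∧
        ∃ T : Finset ℕ, (N : ℝ) ≤ Real.log N ^ B * T.card ∧
        ∀ n ∈ T, N < n ∧ n + S ≤ 2 * N ∧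
          (∀ h ∈ H, (n + h).Prime ∧ n + h ≡ a₀ [MOD W]) ∧
          (∀ h ∈ H, ∀ l : ℕ, l.Prime → ¬ l ∣ W → l ∣ n + h - 1 → (N : ℝ) ^ δ ≤ l) ∧
          ∀ y ≤ S, (n + y).Prime → y ∈ H := by
  obtain ⟨k, P₁, B, δ, hδ, hmain⟩ := runsX 2 m (by norm_num)
  refine ⟨k, max P₁ 2, B, δ, hδ, le_max_right _ _, fun W hW0 hWp => ?_⟩
  have h2W : 2 ∣ W := hWp 2 Nat.prime_two (le_max_right _ _)
  obtain ⟨HH, hHH⟩ : ∃ HH : Finset ℕ, HH = (range (W * 2 ^ k)).image (fun i => 2 * i) := ⟨_, rfl⟩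
  have hHHc : HH.card = W * 2 ^ k := by
    rw [hHH, card_image_of_injective _ (fun a b hab => by
      have : 2 * a = 2 * b := hab
      omega), card_range]
  obtain ⟨S, hS⟩ : ∃ S : ℕ, S = 2 * (W * 2 ^ k) - 2 := ⟨_, rfl⟩
  have hpos : 0 < W * 2 ^ k := Nat.mul_pos hW0 (by positivity)
  have hHHm : ∀ y, y ∈ HH ↔ y ≤ S ∧ 2 ∣ y := by
    intro y
    rw [hHH, mem_image]
    constructor
    · rintro ⟨i, hi, rfl⟩
      rw [mem_range] at hi
      exact ⟨by omega, dvd_mul_right 2 i⟩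
    · rintro ⟨h1, i, rfl⟩
      exact ⟨i, mem_range.2 (by omega), rfl⟩
  refine ⟨S, ?_⟩
  filter_upwards [hmain W hW0 (fun p hp hpP => hWp p hp (hpP.trans (le_max_left _ _))) HH hHHc.ge HH S 1,
    eventually_ge_atTop ((S + 1) * (S + 1) + 2)] with N hN hNb
  intro a₀ ha₀
  obtain ⟨H, hH, hHm, hHk, T, hT, hmem⟩ := hN (fun n : ℤ => n * (n - 1)) (sysX_self W)
    (fun p _ n hn => hn.mul_right _)
    (by
      intro h hh y hy hyh
      rw [hHHm] at hh hy
      obtain ⟨h1, i, h2⟩ := hh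
      obtain ⟨h3, j, h4⟩ := hy
      have e1 : ((h : ℤ) - y) = 2 * ((i : ℤ) - j) := by rw [h2, h4]; push_cast; ring
      have hne : (i : ℤ) - j ≠ 0 := by
        intro h0
        apply hyh
        have : (i : ℤ) = j := by linarith
        have : i = j := by exact_mod_cast this
        rw [h2, h4, this]
      refine ⟨?_, ?_⟩
      · apply mul_ne_zero
        · rw [e1]
          exact mul_ne_zero (by norm_num) hne
        · rw [e1]
          omega
      · rw [Int.natAbs_mul, pow_one]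
        have h5 : ((h : ℤ) - y).natAbs ≤ S + 1 := by omega
        have h6 : ((h : ℤ) - y - 1).natAbs ≤ S + 1 := by omega
        exact (Nat.mul_le_mul h5 h6).trans (by omega)) a₀ ha₀
  refine ⟨H, hHm, hHk, fun h hh => ((hHHm h).1 (hH hh)).1, T, hT, fun n hn => ?_⟩
  obtain ⟨g1, g2, g3, g4, g5⟩ := hmem n hn
  refine ⟨g1, g2, g3, ?_, ?_⟩
  · intro h hh l hl hlW hld
    apply g4 h hh l hl hlW
    have h1 : ((n + h - 1 : ℕ) : ℤ) = ((n + h : ℕ) : ℤ) - 1 := by
      have : 1 ≤ n + h := (g3 h hh).1.one_lt.le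
      push_cast [this]
      ring
    refine Dvd.dvd.mul_left ?_ _
    rw [← h1]
    exact_mod_cast hld
  · intro y hy hyp
    by_cases h2y : 2 ∣ y
    · by_contra hyH
      exact g5 y ((hHHm y).2 ⟨hy, h2y⟩) hyH hyp
    · exfalso
      -- parity: `n` is odd
      obtain ⟨h, hh⟩ : H.Nonempty := by rw [← card_pos]; omega
      have h1 := ((hHHm h).1 (hH hh)).2
      have h2 := (g3 h hh).1
      have h3 : n + h ≠ 2 := by omega
      have h4 := h2.odd_of_ne_two h3
      have h5 := hyp.odd_of_ne_two (by omega)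
      obtain ⟨a, ha⟩ := h4
      obtain ⟨b, hb⟩ := h5
      obtain ⟨c, hc⟩ := h1
      omega

end Pool.Agent.R498.MX
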