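import Pool.Agent.R498.MX.MX8
import Pool.Agent.Y855.B8
import Pool.Agent.Y855.B9

/-!
Primes `p` with `p - 1` free of small odd prime factors: integers of a coprime family which are not
primitive roots.
-/

set_option autoImplicit false

namespace Pool.Agent.R498.MX

open Finset Filter

/-- `x` is an `l`-th power modulo `p` for some odd prime divisor `l` of `p - 1` -/
def badp (x : ℤ) (p : ℕ) : Prop :=
  ∃ l : ℕ, l.Prime ∧ 3 ≤ l ∧ l ∣ p - 1 ∧ (x : ZMod p) ^ ((p - 1) / l) = 1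

theorem order_iffX (n : ℤ) (p : ℕ) [hf : Fact p.Prime] (hp2 : 2 < p) (hpn : ¬ (p : ℤ) ∣ n) :
    orderOf (n : ZMod p) = p - 1 ↔ legendreSym p n = -1 ∧
      ¬ ∃ l : ℕ, l.Prime ∧ 3 ≤ l ∧ l ∣ p - 1 ∧ (n : ZMod p) ^ ((p - 1) / l) = 1 := by
  have hp := hf.1
  have hn0 : (n : ZMod p) ≠ 0 := by
    intro h
    exact hpn ((ZMod.intCast_zmod_eq_zero_iff_dvd _ _).1 h)
  have hodd : Odd p := hp.odd_of_ne_two (by omega)
  have h2d : 2 ∣ p - 1 := by
    obtain ⟨t, ht⟩ := hodd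
    exact ⟨t, by omega⟩
  have hp12 : (p - 1) / 2 = p / 2 := by
    obtain ⟨t, ht⟩ := hodd
    omega
  have hone : (n : ZMod p) ^ (p - 1) = 1 := ZMod.pow_card_sub_one_eq_one hn0
  have hne : (1 : ZMod p) ≠ -1 := by
    intro h
    have h3 : ((2 : ℕ) : ZMod p) = 0 := by
      push_cast
      have h4 : (1 : ZMod p) + 1 = 0 := by
        nth_rewrite 2 [h]
        ring
      rw [← h4]; norm_num
    rw [ZMod.natCast_eq_zero_iff] at h3
    exact absurd (Nat.le_of_dvd (by norm_num) h3) (by omega)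
  have hhalf : (n : ZMod p) ^ ((p - 1) / 2) = ((legendreSym p n : ℤ) : ZMod p) := by
    rw [hp12, legendreSym.eq_pow]
  have hdiv : ∀ l : ℕ, l.Prime → l ∣ p - 1 → orderOf (n : ZMod p) = p - 1 →
      (n : ZMod p) ^ ((p - 1) / l) ≠ 1 := by
    intro l hl hlp ho h
    have h1 := orderOf_dvd_of_pow_eq_one h
    rw [ho] at h1
    have h2 : 0 < (p - 1) / l := Nat.div_pos (Nat.le_of_dvd (by omega) hlp) hl.pos
    have h3 := Nat.le_of_dvd h2 h1
    have h4 : (p - 1) / l < p - 1 := Nat.div_lt_self (by omega) hl.one_lt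
    omega
  constructor
  · intro ho
    constructor
    · rcases legendreSym.eq_one_or_neg_one p hn0 with h | h
      · exfalso
        apply hdiv 2 Nat.prime_two h2d ho
        rw [hhalf, h]
        norm_num
      · exact h
    · rintro ⟨l, hl, _, hlp, h⟩
      exact hdiv l hl hlp ho h
  · rintro ⟨h1, h2⟩
    apply orderOf_eq_of_pow_and_pow_div_prime (by omega) hone
    intro l hl hlp h
    rcases Nat.lt_or_ge l 3 with h3 | h3
    · have h4 : l = 2 := by have := hl.two_le; omega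
      rw [h4, hhalf, h1] at h
      push_cast at h
      exact hne h.symm
    · exact h2 ⟨l, hl, h3, hlp, h⟩

/-- the order from the quadratic symbol -/
theorem ord_ofX (n D b : ℤ) (hn : n = D * b ^ 2) (p : ℕ) (hp : p.Prime) (hp2 : 2 < p)
    (hpn : ¬ (p : ℤ) ∣ n) (hD : jacobiSym D p = -1) (hb : ¬ badp n p) :
    orderOf ((n : ℤ) : ZMod p) = p - 1 := by
  have : Fact p.Prime := ⟨hp⟩
  rw [order_iffX n p hp2 hpn]
  refine ⟨?_, hb⟩
  rw [jacobiSym.legendreSym.to_jacobiSym, hn, jacobiSym.mul_left, hD, jacobiSym.pow_left]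
  have hpb : ¬ (p : ℤ) ∣ b := by
    intro h
    apply hpn
    rw [hn]
    exact (h.trans (dvd_pow_self b (by norm_num))).mul_left D
  have h1 : jacobiSym b p = 1 ∨ jacobiSym b p = -1 := by
    apply jacobiSym.eq_one_or_neg_one
    have h2 : IsCoprime (p : ℤ) b := (Prime.coprime_iff_not_dvd (Nat.prime_iff_prime_int.1 hp)).2 hpb
    exact Int.isCoprime_iff_gcd_eq_one.1 h2.symm
  rcases h1 with h1 | h1 <;> rw [h1] <;> norm_num


/-- few large prime factors -/
theorem few_large (δ : ℝ) (hδ : 0 < δ) (N : ℕ) (hN : 2 ≤ N) (q : ℕ) (hq0 : q ≠ 0) (hq : q ≤ N ^ 2) :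
    (q.primeFactors.filter (fun l : ℕ => (N : ℝ) ^ δ ≤ l)).card ≤ ⌈2 / δ⌉₊ := by
  have hN2 : (2 : ℝ) ≤ N := by exact_mod_cast hN
  have hlog : 0 < Real.log N := Real.log_pos (by linarith)
  obtain ⟨s, hs⟩ : ∃ s, s = q.primeFactors.filter (fun l : ℕ => (N : ℝ) ^ δ ≤ l) := ⟨_, rfl⟩
  rw [← hs]
  have h1 : (∏ l ∈ s, l) ≤ q := by
    apply Nat.le_of_dvd (Nat.pos_of_ne_zero hq0)
    refine (Finset.prod_dvd_prod_of_subset s q.primeFactors (fun l => l) ?_).trans
      (Nat.prod_primeFactors_dvd q)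
    rw [hs]
    exact filter_subset _ _
  have h2 : ((N : ℝ) ^ δ) ^ s.card ≤ ((∏ l ∈ s, l : ℕ) : ℝ) := by
    rw [← Finset.prod_const]
    push_cast
    apply Finset.prod_le_prod
    · intro l _
      positivity
    · intro l hl
      rw [hs, mem_filter] at hl
      exact hl.2
  have h3 : ((N : ℝ) ^ δ) ^ s.card ≤ (N : ℝ) ^ (2 : ℝ) := by
    refine h2.trans ?_
    have h4 : ((∏ l ∈ s, l : ℕ) : ℝ) ≤ ((N ^ 2 : ℕ) : ℝ) := by exact_mod_cast h1.trans hq
    refine h4.trans (le_of_eq ?_)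
    push_cast
    norm_num
  rw [← Real.rpow_natCast, ← Real.rpow_mul (by linarith)] at h3
  have h4 : δ * s.card ≤ 2 := by
    by_contra hcon
    push Not at hcon
    exact absurd h3 (not_le.2 (Real.rpow_lt_rpow_of_exponent_lt (by linarith) hcon))
  have h5 : (s.card : ℝ) ≤ 2 / δ := by
    rw [le_div_iff₀ hδ]
    linarith
  exact_mod_cast h5.trans (Nat.le_ceil _)

open Classical in
theorem few_bad (δ : ℝ) (hδ : 0 < δ) (hδ1 : δ ≤ 1) (U : Finset ℤ) (hU : ∀ x ∈ U, 2 ≤ x.natAbs)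
    (hcop : ∀ x ∈ U, ∀ y ∈ U, x ≠ y → IsCoprime x y) : ∃ C : ℝ, 0 < C ∧ ∀ N : ℕ, 2 ≤ N →
    ∃ Bs : Finset ℕ, (Bs.card : ℝ) ≤ C * (N : ℝ) ^ (1 - (δ / 2) ^ 2) ∧
      ∀ p : ℕ, p.Prime → p ≤ 2 * N → p ∉ Bs → (∀ x ∈ U, ¬ (p : ℤ) ∣ x) →
        (∀ l : ℕ, l.Prime → 3 ≤ l → l ∣ p - 1 → (N : ℝ) ^ δ ≤ l) →
        (U.filter (fun x => badp x p)).card ≤ ⌈2 / δ⌉₊ * ⌈2 / δ⌉₊ := by
  obtain ⟨C, hC, h⟩ := Pool.Agent.Y855.bad_set U hU hcop (δ / 2) (by positivity) (by linarith)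
  refine ⟨2 * C, by positivity, fun N hN => ?_⟩
  have hN2 : (2 : ℝ) ≤ N := by exact_mod_cast hN
  have hN0 : (0 : ℝ) < N := by linarith
  have hlog2 : 0 ≤ Real.log (2 * N) := Real.log_nonneg (by linarith)
  obtain ⟨Bs, hB1, hB2⟩ := h (Real.log (2 * N)) hlog2
  refine ⟨Bs, ?_, ?_⟩
  · refine hB1.trans ?_
    rw [mul_comm (1 - (δ / 2) ^ 2), ← Real.rpow_def_of_pos (by positivity), mul_assoc, mul_left_comm]
    apply mul_le_mul_of_nonneg_left _ hC.le
    rw [Real.mul_rpow (by norm_num) hN0.le]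
    apply mul_le_mul_of_nonneg_right _ (by positivity)
    calc (2 : ℝ) ^ (1 - (δ / 2) ^ 2) ≤ 2 ^ (1 : ℝ) :=
          Real.rpow_le_rpow_of_exponent_le (by norm_num) (by nlinarith [sq_nonneg (δ / 2)])
      _ = 2 := by norm_num
  · intro p hp hpN hpB hpU hl
    have hp1 : 0 < p - 1 := by have := hp.two_le; omega
    have hsub : U.filter (fun x => badp x p) ⊆
        ((p - 1).primeFactors.filter (fun l : ℕ => (N : ℝ) ^ δ ≤ l)).biUnion
          (fun l => U.filter (fun x : ℤ => (x : ZMod p) ^ ((p - 1) / l) = 1)) := by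
      intro x hx
      rw [mem_filter] at hx
      obtain ⟨hxU, l, hlp, hl3, hld, hlx⟩ := hx
      rw [mem_biUnion]
      refine ⟨l, mem_filter.2 ⟨Nat.mem_primeFactors.2 ⟨hlp, hld, by omega⟩, hl l hlp hl3 hld⟩,
        mem_filter.2 ⟨hxU, hlx⟩⟩
    refine (card_le_card hsub).trans (card_biUnion_le.trans ((sum_le_card_nsmul _ _ ⌈2 / δ⌉₊ ?_).trans ?_))
    · intro l hlm
      rw [mem_filter, Nat.mem_primeFactors] at hlm
      obtain ⟨⟨hlp, hld, -⟩, hlN⟩ := hlm
      have h2 := hB2 p hp hpU hpB ((p - 1) / l) (Nat.div_pos (Nat.le_of_dvd hp1 hld) hlp.pos) (by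
        refine Nat.cast_div_le.trans ?_
        have hNd : (0 : ℝ) < (N : ℝ) ^ δ := by positivity
        have e1 : ((p - 1 : ℕ) : ℝ) ≤ 2 * N := by
          have : p - 1 ≤ 2 * N := by omega
          exact_mod_cast this
        have e2 : ((p - 1 : ℕ) : ℝ) / l ≤ 2 * N / (N : ℝ) ^ δ := by gcongr
        refine e2.trans ?_
        rw [mul_comm (1 - δ / 2), ← Real.rpow_def_of_pos (by positivity), Real.rpow_sub (by positivity),
          Real.rpow_one]
        apply div_le_div_of_nonneg_left (by positivity) (by positivity)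
        calc (2 * (N : ℝ)) ^ (δ / 2) ≤ ((N : ℝ) ^ (2 : ℝ)) ^ (δ / 2) := by
              apply Real.rpow_le_rpow (by positivity) _ (by positivity)
              norm_num
              nlinarith
          _ = (N : ℝ) ^ δ := by
              rw [← Real.rpow_mul hN0.le]
              congr 1
              ring)
      have h3 : (1 : ℝ) / (δ / 2) = 2 / δ := by field_simp
      rw [h3] at h2
      exact h2.le
    · rw [smul_eq_mul]
      apply Nat.mul_le_mul_right
      apply few_large δ hδ N hN (p - 1) (by omega)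
      calc p - 1 ≤ 2 * N := by omega
        _ ≤ N ^ 2 := by nlinarith

end Pool.Agent.R498.MX
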